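import Pool.Agent.Work.P57M.COREM

set_option autoImplicit false

namespace Pool.Agent.Work.P57

namespace FINM

open HahnSeries FIN1

theorem noOne {ι : Type} (J : Finset ι) (M : ι → ℕ) (o : ι) (hlt : ∀ j ∈ J, j ≠ o → M j < M o)
    (hMo : 0 < M o) :
    ∀ j ∈ J, j ≠ o → ∀ d e : ℕ, d ∣ 3 * M j → 0 < e → (¬ 3 * d ∣ 3 * M j → e * 3 = d ^ 2) →
      (3 * d ∣ 3 * M j → e = d ^ 2) → e * M o ≠ (3 * (M o) ^ 2) * M j := by
  intro j hj hjo d e hd he h1 h2 h
  have hl := hlt j hj hjo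
  have h3 : e = 3 * M o * M j := by
    apply Nat.eq_of_mul_eq_mul_right hMo
    rw [h]
    ring
  by_cases hc : 3 * d ∣ 3 * M j
  · have h4 := h2 hc
    have h5 : d ∣ M j := Nat.dvd_of_mul_dvd_mul_left (by norm_num) hc
    have hMj : 0 < M j := by
      rcases Nat.eq_zero_or_pos (M j) with h0 | h0
      · rw [h3, h0, mul_zero] at he
        omega
      · exact h0
    have h6 : d ≤ M j := Nat.le_of_dvd hMj h5
    have h7 : d ^ 2 ≤ M j ^ 2 := Nat.pow_le_pow_left h6 2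
    nlinarith
  · have h4 := h1 hc
    have hMj : 0 < M j := by
      rcases Nat.eq_zero_or_pos (M j) with h0 | h0
      · rw [h3, h0, mul_zero] at he
        omega
      · exact h0
    have h6 : d ≤ 3 * M j := Nat.le_of_dvd (by omega) hd
    have h7 : d ^ 2 ≤ (3 * M j) ^ 2 := Nat.pow_le_pow_left h6 2
    nlinarith

theorem sq3' (x d a b : ℕ) (hx : 0 < x) (ha : ¬ 3 ∣ a) (hb : ¬ 3 ∣ b)
    (h : d ^ 2 * a = 3 * x ^ 2 * b) : False := by
  have ha0 : a ≠ 0 := by rintro rfl; exact ha (dvd_zero _)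
  have hb0 : b ≠ 0 := by rintro rfl; exact hb (dvd_zero _)
  have hd : d ≠ 0 := by
    rintro rfl
    have : 0 < 3 * x ^ 2 * b := by positivity
    rw [← h] at this
    simp at this
  have hp : Fact (Nat.Prime 3) := ⟨by norm_num⟩
  have h1 := congrArg (padicValNat 3) h
  rw [padicValNat.mul (by positivity) ha0, padicValNat.mul (by positivity) hb0,
    padicValNat.mul (by norm_num) (by positivity), padicValNat.pow, padicValNat.pow,
    padicValNat.eq_zero_of_not_dvd ha, padicValNat.eq_zero_of_not_dvd hb, padicValNat_self] at h1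
  omega

theorem noZero {ι : Type} (J : Finset ι) (M B : ι → ℕ) (o : ι)
    (hlt : ∀ j ∈ J, j ≠ o → M j < M o) (hMo : 0 < M o) (hodd : ∀ j ∈ J, Odd (M j))
    (hcong : ∀ j ∈ J, (M j : ℤ) * (6 * B o - 1) = (M o : ℤ) * (6 * B j - 1)) :
    ∀ j ∈ J, j ≠ o → ∀ d e : ℕ, d ∣ 3 * M j → 0 < e → (¬ 3 * d ∣ 3 * M j → e * 3 = d ^ 2) →
      (3 * d ∣ 3 * M j → e = d ^ 2) → e * M o ≠ ((M o) ^ 2) * M j := by
  intro j hj hjo d e hd he h1 h2 h
  have hl := hlt j hj hjo
  have hMj : 0 < M j := (hodd j hj).pos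
  have h3 : e = M o * M j := by
    apply Nat.eq_of_mul_eq_mul_right hMo
    rw [h]
    ring
  by_cases hc : 3 * d ∣ 3 * M j
  · have h4 := h2 hc
    have h5 : d ∣ M j := Nat.dvd_of_mul_dvd_mul_left (by norm_num) hc
    have h6 : d ≤ M j := Nat.le_of_dvd hMj h5
    have h7 : d ^ 2 ≤ M j ^ 2 := Nat.pow_le_pow_left h6 2
    nlinarith
  · have h4 := h1 hc
    have h5 := hcong j hj
    -- `d ^ 2 (6 B o - 1) = 3 (M o) ^ 2 (6 B j - 1)`
    have h6 : (d : ℤ) ^ 2 * (6 * B o - 1) = 3 * (M o : ℤ) ^ 2 * (6 * B j - 1) := by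
      have h7 : (d : ℤ) ^ 2 = 3 * (M o) * M j := by
        have h8 : d ^ 2 = 3 * M o * M j := by rw [← h4, h3]; ring
        exact_mod_cast h8
      rw [h7]
      linear_combination (3 * (M o : ℤ)) * h5
    have h9 := congrArg Int.natAbs h6
    rw [Int.natAbs_mul, Int.natAbs_mul, Int.natAbs_mul, Int.natAbs_pow, Int.natAbs_pow,
      Int.natAbs_natCast, Int.natAbs_natCast] at h9
    refine sq3' (M o) d _ _ hMo ?_ ?_ h9
    · intro h10
      have h11 : (3 : ℤ) ∣ 6 * (B o : ℤ) - 1 := Int.natCast_dvd.2 h10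
      omega
    · intro h10
      have h11 : (3 : ℤ) ∣ 6 * (B j : ℤ) - 1 := Int.natCast_dvd.2 h10
      omega

theorem caseOneM (hTH : Stmt_TH) (hSIV : Stmt_SIV) (hGS : Stmt_GS) (hTAU : Stmt_TAUM)
    (hMIN : Stmt_MIN) (k s : ℕ) (ι : Type) (J : Finset ι) (M B : ι → ℕ) (lam : ι → kk) (o : ι)
    (ho : o ∈ J) (hMM' : ∀ j ∈ J, Odd (M j)) (hs : 2 ≤ s) (h3M : ∀ j ∈ J, 3 * M j ∣ nn s)
    (hcong : ∀ j ∈ J, (M j : ℤ) * (6 * B o - 1) = (M o : ℤ) * (6 * B j - 1))
    (hrel : ∑ j ∈ J, lam j • (single (-4 * (n0 s / (3 * M j) : ℕ) : ℤ) (1 : kk) *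
      (Th (fun n : ℕ => 3 * (n0 s / (3 * M j) : ℕ) * (n : ℤ))
        (fun n => if n % (2 ^ k * M j) = B j % (2 ^ k * M j) then (pa n : kk) else 0)) ^ 8) = 0)
    (hlt : ∀ j ∈ J, j ≠ o → M j < M o) (ξ : kkˣ)
    (hξ : IsPrimitiveRoot ξ (D0 s)) (hlam : lam o ≠ 0)
    (hcl : (2 ^ (k + 1) : ℤ) ∣ 3 * ((M o) : ℤ) ^ 2 - (1 - 6 * (B o))) : False := by
  have hM : Odd (M o) := hMM' o ho
  have hMpos : 0 < (M o) := hM.pos
  obtain ⟨jf, hjf⟩ : ∃ jf : ℕ → ℤ, ∀ i, ((3 * (M o) : ℕ) : ℤ) ∣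
      jf i * (0 - i) - Int.gcd (0 - i) (3 * (M o) : ℕ) := by
    choose jf hjf using fun i : ℕ => bez (0 - i) (3 * (M o))
    exact ⟨jf, hjf⟩
  obtain ⟨cc, e', h1, h2⟩ := coreO hTH hSIV hGS hTAU hMIN k s ι J M B lam o ho hMM' hs
    h3M hcong hrel ξ hξ hlam 0 (3 * (M o) ^ 2) (by positivity) (by push_cast; exact hcl)
    (noOne J M o hlt hMpos) jf (fun i _ => hjf i)
  have h0 : 0 ∈ II (M o) := by
    rw [Finset.mem_filter, Finset.mem_range]
    exact ⟨by omega, dvd_zero _⟩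
  rw [Finset.sum_eq_single_of_mem 0 h0] at h2
  · obtain ⟨q1, q2, q3, -⟩ := h1 0 h0
    have hg : Int.gcd (0 - (0 : ℕ)) (3 * (M o) : ℕ) = 3 * (M o) := by
      rw [Nat.cast_zero, sub_zero, Int.gcd_zero_left, Int.natAbs_natCast]
    rw [hg] at q3
    have hnd : ¬ 3 * (3 * (M o)) ∣ 3 * (M o) := by
      intro h
      have := Nat.le_of_dvd (by omega) h
      omega
    have q4 := q3 hnd
    have q5 : e' 0 = 3 * (M o) ^ 2 := by nlinarith
    rw [if_pos q5] at h2
    exact mul_ne_zero (Units.ne_zero _) q1 h2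
  · intro i hi hne
    obtain ⟨q1, q2, q3, q4⟩ := h1 i hi
    rw [Finset.mem_filter, Finset.mem_range] at hi
    rw [if_neg, mul_zero]
    intro he
    set d : ℕ := Int.gcd (0 - (i : ℤ)) (3 * (M o) : ℕ) with hd
    have hd1 : d ∣ 3 * (M o) := by
      have : (d : ℤ) ∣ (3 * (M o) : ℕ) := Int.gcd_dvd_right _ _
      exact_mod_cast this
    have hd2 : d ∣ i := by
      have : (d : ℤ) ∣ 0 - (i : ℤ) := Int.gcd_dvd_left _ _
      rw [zero_sub, Int.dvd_neg] at this
      exact_mod_cast this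
    have hdM : d ≤ (M o) := by
      have hdi : d ≤ i := Nat.le_of_dvd (Nat.pos_of_ne_zero hne) hd2
      obtain ⟨c, hc⟩ := hd1
      have hodd : Odd (d * c) := by
        rw [← hc]
        exact Nat.odd_mul.2 ⟨by decide, hM⟩
      have hco : Odd c := (Nat.odd_mul.1 hodd).2
      obtain ⟨x, rfl⟩ := hco
      rcases Nat.eq_zero_or_pos x with rfl | hx
      · omega
      · have : d * 3 ≤ d * (2 * x + 1) := Nat.mul_le_mul_left _ (by omega)
        omega
    have hdd : d ^ 2 ≤ (M o) ^ 2 := Nat.pow_le_pow_left hdM 2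
    have hMM : 0 < (M o) ^ 2 := by positivity
    by_cases hc : 3 * d ∣ 3 * (M o)
    · have := (q4 hc).1
      omega
    · have := q3 hc
      omega

theorem caseZeroM (hTH : Stmt_TH) (hSIV : Stmt_SIV) (hGS : Stmt_GS) (hTAU : Stmt_TAUM)
    (hMIN : Stmt_MIN) (k s : ℕ) (ι : Type) (J : Finset ι) (M B : ι → ℕ) (lam : ι → kk) (o : ι)
    (ho : o ∈ J) (hMM' : ∀ j ∈ J, Odd (M j)) (hs : 2 ≤ s) (h3M : ∀ j ∈ J, 3 * M j ∣ nn s)
    (hcong : ∀ j ∈ J, (M j : ℤ) * (6 * B o - 1) = (M o : ℤ) * (6 * B j - 1))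
    (hrel : ∑ j ∈ J, lam j • (single (-4 * (n0 s / (3 * M j) : ℕ) : ℤ) (1 : kk) *
      (Th (fun n : ℕ => 3 * (n0 s / (3 * M j) : ℕ) * (n : ℤ))
        (fun n => if n % (2 ^ k * M j) = B j % (2 ^ k * M j) then (pa n : kk) else 0)) ^ 8) = 0)
    (hlt : ∀ j ∈ J, j ≠ o → M j < M o) (ξ : kkˣ)
    (hξ : IsPrimitiveRoot ξ (D0 s)) (hlam : lam o ≠ 0)
    (hcl : (2 ^ (k + 1) : ℤ) ∣ ((M o) : ℤ) ^ 2 - (1 - 6 * (B o))) : False := by
  classical
  have hM : Odd (M o) := hMM' o ho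
  have hMpos : 0 < (M o) := hM.pos
  obtain ⟨jf, hjf, hjf0, hjf2⟩ : ∃ jf : ℕ → ℤ, (∀ i, ((3 * (M o) : ℕ) : ℤ) ∣
      jf i * ((M o) - i) - Int.gcd ((M o) - i) (3 * (M o) : ℕ)) ∧ jf 0 = 1 ∧ jf (2 * (M o)) = -1 := by
    choose jf hjf using fun i : ℕ => bez (((M o) : ℤ) - i) (3 * (M o))
    refine ⟨fun i => if i = 0 then 1 else if i = 2 * (M o) then -1 else jf i, ?_, by simp, ?_⟩
    · intro i
      by_cases h0 : i = 0
      · subst h0
        have : Int.gcd (((M o) : ℤ) - (0 : ℕ)) (3 * (M o) : ℕ) = (M o) := by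
          rw [Nat.cast_zero, sub_zero, Int.gcd_natCast_natCast]
          exact Nat.gcd_eq_left (Dvd.intro_left _ rfl)
        rw [this]
        simp
      · by_cases h2 : i = 2 * (M o)
        · subst h2
          have : Int.gcd (((M o) : ℤ) - (2 * (M o) : ℕ)) (3 * (M o) : ℕ) = (M o) := by
            have e1 : (((M o) : ℤ) - (2 * (M o) : ℕ)) = -((M o) : ℤ) := by push_cast; ring
            rw [e1, Int.neg_gcd, Int.gcd_natCast_natCast]
            exact Nat.gcd_eq_left (Dvd.intro_left _ rfl)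
          rw [this]
          simp only [if_neg h0, if_true]
          refine ⟨0, ?_⟩
          push_cast
          ring
        · simp only [if_neg h0, if_neg h2]
          exact hjf i
    · simp only [if_true]
      rw [if_neg (by omega)]
  obtain ⟨cc, e', h1, h2⟩ := coreO hTH hSIV hGS hTAU hMIN k s ι J M B lam o ho hMM' hs
    h3M hcong hrel ξ hξ hlam (M o) ((M o) ^ 2) (by positivity) (by push_cast; exact hcl)
    (noZero J M B o hlt hMpos hMM' hcong) jf (fun i _ => hjf i)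
  have hMM : 0 < (M o) ^ 2 := by positivity
  have hg0 : Int.gcd (((M o) : ℤ) - (0 : ℕ)) (3 * (M o) : ℕ) = (M o) := by
    rw [Nat.cast_zero, sub_zero, Int.gcd_natCast_natCast]
    exact Nat.gcd_eq_left (Dvd.intro_left _ rfl)
  have hg2 : Int.gcd (((M o) : ℤ) - (2 * (M o) : ℕ)) (3 * (M o) : ℕ) = (M o) := by
    have e1 : (((M o) : ℤ) - (2 * (M o) : ℕ)) = -((M o) : ℤ) := by push_cast; ring
    rw [e1, Int.neg_gcd, Int.gcd_natCast_natCast]
    exact Nat.gcd_eq_left (Dvd.intro_left _ rfl)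
  have h0 : 0 ∈ II (M o) := by
    rw [Finset.mem_filter, Finset.mem_range]
    exact ⟨by omega, dvd_zero _⟩
  have hne : ∀ i ∈ II (M o), i ≠ 0 → i ≠ 2 * (M o) → (if e' i = (M o) ^ 2 then cc i else 0) = 0 := by
    intro i hi hi0 hi2
    obtain ⟨q1, q2, q3, q4⟩ := h1 i hi
    rw [Finset.mem_filter, Finset.mem_range] at hi
    rw [if_neg]
    intro he
    by_cases hc : 3 * Int.gcd (((M o) : ℤ) - i) (3 * (M o) : ℕ) ∣ 3 * (M o)
    · have h3 := (q4 hc).1
      rw [he] at h3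
      have h4 : (M o) = Int.gcd (((M o) : ℤ) - i) (3 * (M o) : ℕ) := by
        have := Nat.pow_left_injective (n := 2) (by norm_num) h3
        exact this
      have h5 : ((M o) : ℤ) ∣ ((M o) : ℤ) - i := by
        have : ((Int.gcd (((M o) : ℤ) - i) (3 * (M o) : ℕ) : ℕ) : ℤ) ∣ ((M o) : ℤ) - i := Int.gcd_dvd_left _ _
        rw [← h4] at this
        exact this
      have h6 : ((M o) : ℤ) ∣ (i : ℤ) := by
        have := dvd_sub (dvd_refl ((M o) : ℤ)) h5
        rw [sub_sub_cancel] at this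
        exact this
      have h7 : (M o) ∣ i := by exact_mod_cast h6
      obtain ⟨c, hc'⟩ := h7
      have hc3 : c < 3 := by
        by_contra hcon
        push Not at hcon
        have : (M o) * 3 ≤ (M o) * c := Nat.mul_le_mul_left _ hcon
        omega
      have hcM : c = 1 := by
        interval_cases c
        · omega
        · rfl
        · omega
      subst hcM
      rw [mul_one] at hc'
      subst hc'
      rw [sub_self, Int.gcd_zero_left, Int.natAbs_natCast] at h4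
      omega
    · have h3 := q3 hc
      rw [he] at h3
      exact sq3 (M o) _ hMpos h3
  obtain ⟨q1, q2, q3, q4⟩ := h1 0 h0
  rw [hg0] at q4
  obtain ⟨q5, q6⟩ := q4 (dvd_refl _)
  by_cases h2M : 2 * (M o) ∈ II (M o)
  · rw [Finset.sum_eq_add_of_mem 0 (2 * (M o)) h0 h2M (by omega)] at h2
    · obtain ⟨p1, p2, p3, p4⟩ := h1 (2 * (M o)) h2M
      rw [hg2] at p4
      obtain ⟨p5, p6⟩ := p4 (dvd_refl _)
      rw [if_pos q5, if_pos p5] at h2
      have h3 := CharTwo.add_eq_zero.1 h2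
      have h4 := congrArg (fun x => x ^ 3) h3
      simp only [mul_pow] at h4
      rw [q6, p6, hjf0, hjf2] at h4
      have h3n0 : 3 * (M o) ∣ n0 s := by
        rw [n0_eq]
        exact Dvd.dvd.mul_right (h3M o ho) _
      have hm0' : n0 s / (3 * (M o)) * (3 * (M o)) = n0 s := Nat.div_mul_cancel h3n0
      set m0 : ℕ := n0 s / (3 * (M o)) with hm0
      have hord : IsPrimitiveRoot (ξ ^ (3 * m0 * (M o))) 3 := by
        apply hξ.pow
        · unfold D0
          have := (n0_odd s (by omega)).pos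
          omega
        · unfold D0
          rw [← hm0']
          ring
      have hω3 : (ξ ^ (3 * m0 * (M o))) ^ 3 = 1 := hord.pow_eq_one
      have hω1 : ξ ^ (3 * m0 * (M o)) ≠ 1 := hord.ne_one (by norm_num)
      rw [← Units.val_pow_eq_pow_val, ← Units.val_pow_eq_pow_val, ← Units.val_mul,
        ← Units.val_mul, Units.val_inj] at h4
      apply hω1
      set ω : kkˣ := ξ ^ (3 * m0 * (M o)) with hω
      have a1 : (ξ ^ (-(24 * (m0 : ℤ) * ((0 : ℕ) : ℤ) * (B o)))) ^ 3 = 1 := by simp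
      have a2 : ξ ^ (12 * (m0 : ℤ) * ((0 : ℕ) : ℤ)) = 1 := by simp
      have a3 : ξ ^ (3 * (m0 : ℤ) * 1 * ((M o) : ℤ)) = ω := by
        rw [hω, ← zpow_natCast]
        congr 1
        push_cast
        ring
      have a4 : (ξ ^ (-(24 * (m0 : ℤ) * ((2 * (M o) : ℕ) : ℤ) * (B o)))) ^ 3 = 1 := by
        have : ξ ^ (-(24 * (m0 : ℤ) * ((2 * (M o) : ℕ) : ℤ) * (B o))) = (ω ^ (16 * (B o)))⁻¹ := by
          rw [hω, ← pow_mul, ← zpow_natCast, ← zpow_neg]
          congr 1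
          push_cast
          ring
        rw [this, inv_pow, ← pow_mul, mul_comm, pow_mul, hω3, one_pow, inv_one]
      have a5 : ξ ^ (12 * (m0 : ℤ) * ((2 * (M o) : ℕ) : ℤ)) = ω ^ 8 := by
        rw [hω, ← pow_mul, ← zpow_natCast]
        congr 1
        push_cast
        ring
      have a6 : ξ ^ (3 * (m0 : ℤ) * -1 * ((M o) : ℤ)) = ω⁻¹ := by
        rw [hω, ← zpow_natCast, ← zpow_neg]
        congr 1
        push_cast
        ring
      rw [a1, a2, a3, a4, a5, a6, inv_inv, one_mul, one_mul, one_mul, ← _root_.pow_add] at h4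
      have b1 : ω ^ (8 + 4) = 1 := by
        have : ω ^ (8 + 4) = (ω ^ 3) ^ 4 := (_root_.pow_mul ω 3 4)
        rw [this, hω3, one_pow]
      rw [b1, inv_pow, inv_eq_one] at h4
      have b2 : ω ^ 4 = ω := by
        have : ω ^ 4 = ω ^ 3 * ω := pow_succ _ _
        rw [this, hω3, one_mul]
      rw [← b2, h4]
    · intro i hi hh
      rw [hne i hi hh.1 hh.2, mul_zero]
  · rw [Finset.sum_eq_single_of_mem 0 h0] at h2
    · rw [if_pos q5] at h2
      exact mul_ne_zero (Units.ne_zero _) q1 h2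
    · intro i hi hi0
      rw [hne i hi hi0 (by rintro rfl; exact h2M hi), mul_zero]

end FINM

end Pool.Agent.Work.P57
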