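import Pool.Agent.Work.P57.Interface

set_option autoImplicit false

namespace Pool.Agent.Work.P57

/-- `a(n)` modulo `2`, with `a(n) = 0` for `n < 0` -/
noncomputable def PP (n : ℤ) : kk := if 0 ≤ n then (pa n.toNat : kk) else 0

/-- BLOCK FAM: independence in one class: `(6 B j - 1) / M j` does not depend on `j`. -/
def Stmt_FAM : Prop := ∀ (k : ℕ), 2 ≤ k → ∀ (ι : Type) (J : Finset ι) (M B : ι → ℕ)
  (lam : ι → kk) (o : ι), o ∈ J → (∀ j ∈ J, Odd (M j)) → (B o % 4 = 0 ∨ B o % 4 = 1) →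
  (∀ j ∈ J, (M j : ℤ) * (6 * B o - 1) = (M o : ℤ) * (6 * B j - 1)) →
  (∀ j ∈ J, j ≠ o → M j < M o) → lam o ≠ 0 →
  ∃ m : ℤ, ∑ j ∈ J, lam j * PP ((2 ^ k * M j : ℕ) * m + B j) ≠ 0

end Pool.Agent.Work.P57
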