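import Pool.Agent.Work.P57L.LI
import Pool.Agent.Work.P57M.Interface2

/-!
# Linear independence of the sieved series, all progressions
-/

set_option autoImplicit false

namespace Pool.Agent.Work.P57.LI2

open HahnSeries FIN2aux LI

/-- `(6B-1)/(6A)` and `(6B'-1)/(6A')` differ by an integer -/
def CG (A A' B B' : ℕ) : Prop :=
  (6 * (A : ℤ) * (A' : ℤ)) ∣ (A' : ℤ) * (6 * B - 1) - (A : ℤ) * (6 * B' - 1)

theorem CG_symm {A A' B B' : ℕ} (h : CG A A' B B') : CG A' A B' B := by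
  obtain ⟨v, hv⟩ := h
  refine ⟨-v, ?_⟩
  linear_combination -hv

theorem CG_refl (A B : ℕ) : CG A A B B := by
  refine ⟨0, ?_⟩
  ring

theorem k_le {k k' M M' B B' : ℕ} (hM : Odd M) (h : CG (2 ^ k * M) (2 ^ k' * M') B B') :
    k' ≤ k := by
  by_contra hlt
  push Not at hlt
  obtain ⟨v, hv⟩ := h
  obtain ⟨d, hd⟩ : ∃ d, k' = k + 1 + d := ⟨k' - (k + 1), by omega⟩
  have h2 : ((2 : ℤ) ^ k) * ((M : ℤ) * (6 * B' - 1)) =
      ((2 : ℤ) ^ k) * (2 * (2 ^ d * (M' : ℤ) * (6 * B - 1) -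
        6 * M * 2 ^ k * 2 ^ d * M' * v)) := by
    rw [hd] at hv
    push_cast at hv
    have e1 : (2 : ℤ) ^ (k + 1 + d) = 2 ^ k * 2 * 2 ^ d := by
      rw [_root_.pow_add, pow_succ]
    rw [e1] at hv
    linear_combination -hv
  have h3 := mul_left_cancel₀ (by positivity) h2
  have h4 : Odd ((M : ℤ) * (6 * B' - 1)) := by
    refine Odd.mul ?_ ?_
    · exact_mod_cast hM
    · exact ⟨3 * B' - 1, by ring⟩
  rw [h3] at h4
  exact (Int.not_odd_iff_even.2 (even_two_mul _)) h4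

theorem k_eq {k k' M M' B B' : ℕ} (hM : Odd M) (hM' : Odd M')
    (h : CG (2 ^ k * M) (2 ^ k' * M') B B') : k = k' :=
  le_antisymm (k_le hM' (CG_symm h)) (k_le hM h)

/-- the normalized representative -/
theorem rep {k M M' B B' : ℕ} (hM : 0 < M) (hM' : 0 < M') (hle : M ≤ M')
    (h : CG (2 ^ k * M) (2 ^ k * M') B B') : ∃ (C : ℕ) (v : ℤ),
      (M : ℤ) * (6 * B' - 1) = (M' : ℤ) * (6 * C - 1) ∧
      (C : ℤ) = B - (2 ^ k * M : ℕ) * v := by
  obtain ⟨v, hv⟩ := h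
  have h1 : (M' : ℤ) * (6 * B - 1) - M * (6 * B' - 1) = 6 * 2 ^ k * M * M' * v := by
    apply mul_left_cancel₀ (a := (2 : ℤ) ^ k) (by positivity)
    push_cast at hv
    linear_combination hv
  have hMz : (0 : ℤ) < M := by exact_mod_cast hM
  have hMz' : (0 : ℤ) < M' := by exact_mod_cast hM'
  have hlez : (M : ℤ) ≤ M' := by exact_mod_cast hle
  have h2 : (M : ℤ) * (6 * B' - 1) = M' * (6 * (B - (2 ^ k * M : ℕ) * v) - 1) := by
    push_cast
    linear_combination -h1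
  have h3 : 0 ≤ (B : ℤ) - (2 ^ k * M : ℕ) * v := by
    by_contra hneg
    push Not at hneg
    set C : ℤ := (B : ℤ) - (2 ^ k * M : ℕ) * v with hC
    have h4 : (M' : ℤ) * (6 * C - 1) ≤ M' * (-7) :=
      mul_le_mul_of_nonneg_left (by omega) hMz'.le
    have h5 : (M : ℤ) * (-1) ≤ M * (6 * B' - 1) :=
      mul_le_mul_of_nonneg_left (by omega) hMz.le
    nlinarith
  refine ⟨((B : ℤ) - (2 ^ k * M : ℕ) * v).toNat, v, ?_, ?_⟩
  · rw [Int.toNat_of_nonneg h3]
    exact h2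
  · rw [Int.toNat_of_nonneg h3]

theorem W_coeff_int (s K k M B : ℕ) (hm : 0 < n0 s / (3 * M)) (n : ℤ)
    (hn : ((2 ^ k * M : ℕ) : ℤ) ∣ n - B) :
    (W s K k M B).coeff (((2 ^ (K - k) * (4 * (n0 s / (3 * M))) : ℕ) : ℤ) * (6 * n - 1)) =
      PP n := by
  unfold PP
  split_ifs with h0
  · obtain ⟨m, rfl⟩ := Int.eq_ofNat_of_zero_le h0
    rw [Int.toNat_natCast]
    have h1 := W_coeff s K k M B hm m
    rw [if_pos] at h1
    · exact h1
    · have h2 : (B : ℤ) ≡ m [ZMOD ((2 ^ k * M : ℕ) : ℤ)] := Int.modEq_iff_dvd.2 hn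
      exact (Int.natCast_modEq_iff.1 h2).symm
  · by_contra hne
    obtain ⟨n', -, h2⟩ := W_supp s K k M B hm _ hne
    have h3 : ((2 ^ (K - k) * (4 * (n0 s / (3 * M))) : ℕ) : ℤ) ≠ 0 := by positivity
    have h4 := mul_left_cancel₀ h3 h2
    apply h0
    omega

theorem e_mul (s K k M : ℕ) (hkK : k ≤ K) (hmul : 3 * M * (n0 s / (3 * M)) = n0 s) :
    ((2 ^ (K - k) * (4 * (n0 s / (3 * M))) : ℕ) : ℤ) * (3 * (2 ^ k * M : ℕ)) =
            ((2 ^ K * 4 * n0 s : ℕ) : ℤ) := by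
  have e2 : 2 ^ K = 2 ^ (K - k) * 2 ^ k := by
    rw [← _root_.pow_add]
    congr 1
    omega
  have e3 : 2 ^ (K - k) * (4 * (n0 s / (3 * M))) * (3 * (2 ^ k * M)) =
      2 ^ K * 4 * n0 s := by
    rw [e2]
    conv_rhs => rw [← hmul]
    ring
  exact_mod_cast e3

theorem some_zero {ι : Type} [Fintype ι] (hF : Stmt_FAM) (s : ℕ) (hs1 : 1 ≤ s) (K : ℕ)
    (k M B : ι → ℕ) (hkK : ∀ i, k i ≤ K) (hk : ∀ i, 2 ≤ k i) (hM : ∀ i, Odd (M i))
    (hd : ∀ i, 3 * M i ∣ n0 s) (hB : ∀ i, B i % 4 = 0 ∨ B i % 4 = 1)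
    (hI : ∀ i j, i ≠ j → 2 ^ k i * M i = 2 ^ k j * M j →
      ¬ CG (2 ^ k i * M i) (2 ^ k j * M j) (B i) (B j))
    (y : ι → kk)
    (hco : ∀ g : ℤ, g ≠ 0 → ∑ i, y i * (W s K (k i) (M i) (B i)).coeff g = 0) :
    ∀ i, y i = 0 := by
  classical
  have hmul : ∀ i, 3 * M i * (n0 s / (3 * M i)) = n0 s := fun i => Nat.mul_div_cancel' (hd i)
  have hmpos : ∀ i, 0 < n0 s / (3 * M i) := fun i =>
    Nat.div_pos (Nat.le_of_dvd (n0_pos s hs1) (hd i)) (by have := (hM i).pos; omega)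
  have hpos : ((2 ^ K * 4 * n0 s : ℕ) : ℤ) ≠ 0 := by
    have := n0_pos s hs1
    positivity
  by_contra hcon
  push Not at hcon
  obtain ⟨i0, hi0⟩ := hcon
  obtain ⟨o, ho, hmax⟩ := Finset.exists_max_image
    (Finset.univ.filter fun i => y i ≠ 0) M ⟨i0, Finset.mem_filter.2 ⟨Finset.mem_univ _, hi0⟩⟩
  rw [Finset.mem_filter] at ho
  set J : Finset ι := Finset.univ.filter fun j =>
    y j ≠ 0 ∧ CG (2 ^ k j * M j) (2 ^ k o * M o) (B j) (B o) with hJ
  have hJm : ∀ j, j ∈ J ↔ y j ≠ 0 ∧ CG (2 ^ k j * M j) (2 ^ k o * M o) (B j) (B o) := by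
    intro j
    rw [hJ, Finset.mem_filter]
    exact ⟨fun h => h.2, fun h => ⟨Finset.mem_univ _, h⟩⟩
  have hoJ : o ∈ J := (hJm o).2 ⟨ho.2, CG_refl _ _⟩
  have hkj : ∀ j ∈ J, k j = k o := fun j hj => k_eq (hM j) (hM o) ((hJm j).1 hj).2
  have hle : ∀ j ∈ J, M j ≤ M o := fun j hj =>
    hmax j (Finset.mem_filter.2 ⟨Finset.mem_univ _, ((hJm j).1 hj).1⟩)
  have hrep : ∀ j ∈ J, ∃ (C : ℕ) (v : ℤ), (M j : ℤ) * (6 * B o - 1) = (M o : ℤ) * (6 * C - 1) ∧
      (C : ℤ) = B j - (2 ^ k o * M j : ℕ) * v := by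
    intro j hj
    refine rep (hM j).pos (hM o).pos (hle j hj) ?_
    have h1 := ((hJm j).1 hj).2
    rw [hkj j hj] at h1
    exact h1
  choose! C v hC1 hC2 using hrep
  have hCo : C o = B o := by
    have h1 := hC1 o hoJ
    have h2 : (M o : ℤ) ≠ 0 := by
      have := (hM o).pos
      positivity
    have h3 := mul_left_cancel₀ h2 h1
    omega
  obtain ⟨m, hm⟩ := hF (k o) (hk o) ι J M C y o hoJ (fun j _ => hM j) (by
      rw [hCo]
      exact hB o) (by
      intro j hj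
      rw [hCo]
      exact hC1 j hj) (by
      intro j hj hjo
      refine lt_of_le_of_ne (hle j hj) ?_
      intro heq
      refine hI j o hjo ?_ ((hJm j).1 hj).2
      rw [hkj j hj, heq]) ho.2
  -- the exponent
  set no : ℤ := ((2 ^ k o * M o : ℕ) : ℤ) * m + B o with hno
  set g : ℤ := ((2 ^ (K - k o) * (4 * (n0 s / (3 * M o))) : ℕ) : ℤ) * (6 * no - 1) with hg
  have hgne : g ≠ 0 := by
    have h1 : ((2 ^ (K - k o) * (4 * (n0 s / (3 * M o))) : ℕ) : ℤ) ≠ 0 := by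
      have := hmpos o
      positivity
    have h2 : (6 * no - 1) ≠ 0 := by omega
    exact mul_ne_zero h1 h2
  apply hm
  rw [← hco g hgne]
  rw [← Finset.sum_subset (Finset.subset_univ J)]
  · refine Finset.sum_congr rfl fun j hj => ?_
    congr 1
    have hMj : ((M o : ℕ) : ℤ) ≠ 0 := by
      have := (hM o).pos
      positivity
    have hMj' : ((M j : ℕ) : ℤ) ≠ 0 := by
      have := (hM j).pos
      positivity
    have hgj : g = ((2 ^ (K - k j) * (4 * (n0 s / (3 * M j))) : ℕ) : ℤ) *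
        (6 * (((2 ^ k o * M j : ℕ) : ℤ) * m + C j) - 1) := by
      have e1 := e_mul s K (k o) (M o) (hkK o) (hmul o)
      have e2 := e_mul s K (k j) (M j) (hkK j) (hmul j)
      have h3 : (3 * (2 ^ k o * M j : ℕ) : ℤ) ≠ 0 := by
        have := (hM j).pos
        positivity
      have h4 : (M o : ℤ) * (6 * (((2 ^ k o * M j : ℕ) : ℤ) * m + C j) - 1) =
          (M j : ℤ) * (6 * no - 1) := by
        rw [hno]
        push_cast
        have := hC1 j hj
        linear_combination -this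
      rw [hkj j hj] at e2 ⊢
      rw [hg]
      apply mul_left_cancel₀ (mul_ne_zero hMj h3)
      have e3 : ((M o : ℕ) : ℤ) * (3 * (2 ^ k o * M j : ℕ) : ℤ) *
          (((2 ^ (K - k o) * (4 * (n0 s / (3 * M o))) : ℕ) : ℤ) * (6 * no - 1)) =
          (((2 ^ (K - k o) * (4 * (n0 s / (3 * M o))) : ℕ) : ℤ) * (3 * (2 ^ k o * M o : ℕ))) *
          ((M j : ℤ) * (6 * no - 1)) := by
        push_cast
        ring
      have e4 : ((M o : ℕ) : ℤ) * (3 * (2 ^ k o * M j : ℕ) : ℤ) *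
          (((2 ^ (K - k o) * (4 * (n0 s / (3 * M j))) : ℕ) : ℤ) *
            (6 * (((2 ^ k o * M j : ℕ) : ℤ) * m + C j) - 1)) =
          (((2 ^ (K - k o) * (4 * (n0 s / (3 * M j))) : ℕ) : ℤ) * (3 * (2 ^ k o * M j : ℕ))) *
          ((M o : ℤ) * (6 * (((2 ^ k o * M j : ℕ) : ℤ) * m + C j) - 1)) := by
        ring
      rw [e3, e4, e1, e2, h4]
    rw [hgj]
    refine (W_coeff_int s K (k j) (M j) (B j) (hmpos j) _ ?_).symm
    rw [hkj j hj]
    refine ⟨m - v j, ?_⟩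
    have := hC2 j hj
    rw [this]
    ring
  · intro i _ hiJ
    by_cases hy : y i = 0
    · rw [hy, zero_mul]
    · by_contra hne
      have hne2 : (W s K (k i) (M i) (B i)).coeff g ≠ 0 := by
        intro h0
        rw [h0, mul_zero] at hne
        exact hne rfl
      obtain ⟨n', hn', heq⟩ := W_supp s K (k i) (M i) (B i) (hmpos i) _ hne2
      apply hiJ
      rw [hJm]
      refine ⟨hy, ?_⟩
      have e1 := e_mul s K (k o) (M o) (hkK o) (hmul o)
      have e1' := e_mul s K (k i) (M i) (hkK i) (hmul i)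
      have e4 : ((2 ^ k o * M o : ℕ) : ℤ) * (6 * (n' : ℤ) - 1) =
          ((2 ^ k i * M i : ℕ) : ℤ) * (6 * no - 1) := by
        apply mul_left_cancel₀ hpos
        calc ((2 ^ K * 4 * n0 s : ℕ) : ℤ) * (((2 ^ k o * M o : ℕ) : ℤ) * (6 * (n' : ℤ) - 1))
            = (((2 ^ (K - k i) * (4 * (n0 s / (3 * M i))) : ℕ) : ℤ) * (6 * (n' : ℤ) - 1)) *
              (3 * (2 ^ k i * M i : ℕ) * ((2 ^ k o * M o : ℕ) : ℤ)) := by
              rw [← e1']; ring
          _ = (((2 ^ (K - k o) * (4 * (n0 s / (3 * M o))) : ℕ) : ℤ) * (6 * no - 1)) *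
              (3 * (2 ^ k i * M i : ℕ) * ((2 ^ k o * M o : ℕ) : ℤ)) := by rw [← heq]
          _ = ((2 ^ K * 4 * n0 s : ℕ) : ℤ) *
              (((2 ^ k i * M i : ℕ) : ℤ) * (6 * no - 1)) := by
              rw [← e1]; ring
      have e5 : ((2 ^ k i * M i : ℕ) : ℤ) ∣ (n' : ℤ) - B i :=
        (Int.natCast_modEq_iff.2 hn').symm.dvd
      obtain ⟨u, hu⟩ := e5
      refine ⟨m - u, ?_⟩
      have hu' : (B i : ℤ) = n' - ((2 ^ k i * M i : ℕ) : ℤ) * u := by linarith
      have hno' : (B o : ℤ) = no - ((2 ^ k o * M o : ℕ) : ℤ) * m := by linarith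
      rw [hu', hno']
      linear_combination e4

theorem core2 {ι : Type} [Fintype ι] (hF : Stmt_FAM) (k M B : ι → ℕ) (hk : ∀ i, 2 ≤ k i)
    (hM : ∀ i, Odd (M i)) (hB : ∀ i, B i % 4 = 0 ∨ B i % 4 = 1)
    (hI : ∀ i j, i ≠ j → 2 ^ k i * M i = 2 ^ k j * M j →
      ¬ CG (2 ^ k i * M i) (2 ^ k j * M j) (B i) (B j))
    (c : ι → PowerSeries (ZMod 2)) (hc : ∀ i, IsAlgebraic (Polynomial (ZMod 2)) (c i))
    (h : IsAlgebraic (Polynomial (ZMod 2))
      (∑ i, c i * PowerSeries.mk fun m => (pa (2 ^ k i * M i * m + B i) : ZMod 2))) :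
    ∀ i, c i = 0 := by
  classical
  obtain ⟨s, hs, hs3⟩ := exists_s (3 * ∏ i, M i)
    (Nat.odd_mul.mpr ⟨by decide, Finset.prod_induction _ _ (fun _ _ h1 h2 => Nat.odd_mul.mpr ⟨h1, h2⟩)
      odd_one fun i _ => hM i⟩)
  have hs1 : 1 ≤ s := by omega
  have hMs : ∀ i, 3 * M i ∣ nn s := fun i =>
    (mul_dvd_mul_left 3 (Finset.dvd_prod_of_mem M (Finset.mem_univ i))).trans hs3
  have hd : ∀ i, 3 * M i ∣ n0 s := fun i => dvd_trans (hMs i) (nn_dvd_n0 s)
  have hmpos : ∀ i, 0 < n0 s / (3 * M i) := fun i =>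
    Nat.div_pos (Nat.le_of_dvd (n0_pos s hs1) (hd i)) (by have := (hM i).pos; omega)
  have hmul : ∀ i, 3 * M i * (n0 s / (3 * M i)) = n0 s := fun i => Nat.mul_div_cancel' (hd i)
  have hD0 : Odd (D0 s) := by
    unfold D0
    exact Nat.odd_mul.mpr ⟨by decide, n0_odd s hs1⟩
  obtain ⟨ξ, hξ⟩ := exists_prim (D0 s) hD0
  set K := ∑ i, k i with hK
  have hkK : ∀ i, k i ≤ K := fun i => Finset.single_le_sum (fun _ _ => Nat.zero_le _)
    (Finset.mem_univ i)
  have hE : 0 < 2 ^ (K + 3) * n0 s := by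
    have := n0_pos s hs1
    positivity
  choose a P hP hrho using fun i => W_rho s K (k i) (M i) (B i) hs1 (hkK i) (hM i).pos (hd i) hE
  -- the relation
  have hrel : (∑ i, rho (2 ^ (K + 3) * n0 s) hE 1 (c i) *
      (single (a i) 1 * W s K (k i) (M i) (B i) + P i)) = rho (2 ^ (K + 3) * n0 s) hE 1
      (∑ i, c i * PowerSeries.mk fun m => (pa (2 ^ k i * M i * m + B i) : ZMod 2)) := by
    rw [map_sum]
    exact Finset.sum_congr rfl fun i _ => by rw [map_mul, hrho]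
  set T : KK := rho (2 ^ (K + 3) * n0 s) hE 1
    (∑ i, c i * PowerSeries.mk fun m => (pa (2 ^ k i * M i * m + B i) : ZMod 2)) with hT
  have hTalg : IsAlgebraic L1 T := alg_rho _ hE 1 one_ne_zero _ h
  have hcalg : ∀ i, IsAlgebraic L1 (rho (2 ^ (K + 3) * n0 s) hE 1 (c i)) := fun i =>
    alg_rho _ hE 1 one_ne_zero _ (hc i)
  have hL1 : ∀ y : KK, y ∈ L1 → IsAlgebraic L1 y := fun y hy =>
    isAlgebraic_algebraMap (⟨y, hy⟩ : L1)
  have hWm : ∀ i, W s K (k i) (M i) (B i) ∈ KF (D0 s) := fun i =>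
    mem_KF.2 (W_mem s ξ hs hξ K (k i) (M i) (B i) (hM i).pos (hMs i))
  set Cf : Option ι → KK := fun o => match o with
    | none => (∑ i, rho (2 ^ (K + 3) * n0 s) hE 1 (c i) * P i) + T
    | some i => rho (2 ^ (K + 3) * n0 s) hE 1 (c i) * single (a i) 1 with hCf
  set xf : Option ι → KF (D0 s) := fun o => match o with
    | none => 1
    | some i => ⟨W s K (k i) (M i) (B i), hWm i⟩ with hxf
  have hCalg : ∀ o, IsAlgebraic L1 (Cf o) := by
    rintro (_ | i)
    · rw [hCf]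
      simp only
      rw [← mem_algebraicClosure_iff]
      refine add_mem (sum_mem fun i _ => mul_mem ?_ ?_) ?_
      · rw [mem_algebraicClosure_iff]; exact hcalg i
      · rw [mem_algebraicClosure_iff]; exact hL1 _ (hP i)
      · rw [mem_algebraicClosure_iff]; exact hTalg
    · rw [hCf]
      simp only
      exact (hcalg i).mul (hL1 _ (single_mem _ _))
  have hind : ∀ y : Option ι → kk, ∑ o, algebraMap kk KK (y o) * (xf o : KK) = 0 →
      ∀ o, y o = 0 := by
    intro y hy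
    rw [Fintype.sum_option] at hy
    have hco : ∀ g : ℤ, (algebraMap kk KK (y none) * ((xf none : KF (D0 s)) : KK)).coeff g +
        ∑ i, y (some i) * (W s K (k i) (M i) (B i)).coeff g = 0 := by
      intro g
      have h1 := congrArg (fun f : KK => f.coeff g) hy
      simp only [HahnSeries.coeff_add, HahnSeries.coeff_zero] at h1
      rw [coeff_sum'] at h1
      rw [← h1]
      congr 1
      refine Finset.sum_congr rfl fun i _ => ?_
      rw [← HahnSeries.C_eq_algebraMap, HahnSeries.C_mul_eq_smul, HahnSeries.coeff_smul, smul_eq_mul]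
    have hnone : ∀ g : ℤ, g ≠ 0 →
        (algebraMap kk KK (y none) * ((xf none : KF (D0 s)) : KK)).coeff g = 0 := by
      intro g hg
      have h1 : ((xf none : KF (D0 s)) : KK) = 1 := rfl
      rw [h1, mul_one, ← HahnSeries.C_eq_algebraMap, C_apply, HahnSeries.coeff_single_of_ne hg]
    have hsome : ∀ i, y (some i) = 0 :=
      some_zero hF s hs1 K k M B hkK hk hM hd hB hI (fun i => y (some i)) (fun g hg => by
        have h1 := hco g
        rw [hnone g hg, zero_add] at h1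
        exact h1)
    rintro (_ | i)
    · have h1 := hco 0
      rw [Finset.sum_eq_zero (fun i _ => by rw [hsome i, zero_mul]), add_zero] at h1
      have h2 : ((xf none : KF (D0 s)) : KK) = 1 := rfl
      rw [h2, mul_one, ← HahnSeries.C_eq_algebraMap, C_apply, HahnSeries.coeff_single_same] at h1
      exact h1
    · exact hsome i
  have hfin := LDJ.disj2 (single (1 : ℤ) (1 : kk) : KK) (KF (D0 s))
    (z_transc (D0 s) (by exact_mod_cast hD0.pos)) xf Cf hCalg hind (by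
      rw [Fintype.sum_option]
      have h1 : ((xf none : KF (D0 s)) : KK) * Cf none =
        (∑ i, rho (2 ^ (K + 3) * n0 s) hE 1 (c i) * P i) + T := by
        change (1 : KK) * _ = _
        rw [one_mul]
      have h2 : ∀ i, ((xf (some i) : KF (D0 s)) : KK) * Cf (some i) =
          rho (2 ^ (K + 3) * n0 s) hE 1 (c i) * (single (a i) 1 * W s K (k i) (M i) (B i)) := by
        intro i
        change W s K (k i) (M i) (B i) * (rho (2 ^ (K + 3) * n0 s) hE 1 (c i) * single (a i) 1) = _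
        ring
      rw [h1, Finset.sum_congr rfl fun i _ => h2 i]
      have h3 : T = (∑ i, rho (2 ^ (K + 3) * n0 s) hE 1 (c i) *
          (single (a i) 1 * W s K (k i) (M i) (B i))) +
          ∑ i, rho (2 ^ (K + 3) * n0 s) hE 1 (c i) * P i := by
        rw [← Finset.sum_add_distrib, ← hrel]
        exact Finset.sum_congr rfl fun i _ => by ring
      have h4 : ∀ X Y : KK, X + (Y + X) + Y = 0 := by
        intro X Y
        have := CharTwo.add_self_eq_zero (X + Y)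
        linear_combination this
      rw [h3]
      exact h4 _ _)
  intro i
  have h1 := hfin (some i)
  have h2 : rho (2 ^ (K + 3) * n0 s) hE 1 (c i) * single (a i) (1 : kk) = 0 := h1
  have h3 : rho (2 ^ (K + 3) * n0 s) hE 1 (c i) = 0 := by
    rcases mul_eq_zero.1 h2 with h4 | h4
    · exact h4
    · exact absurd h4 (HahnSeries.single_ne_zero one_ne_zero)
  exact rho_inj _ hE 1 one_ne_zero (by rw [h3, map_zero])

end Pool.Agent.Work.P57.LI2
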