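import Pool.Agent.Work.P57M.LI2B

/-!
# Sums over several progressions: the general case
-/

set_option autoImplicit false

namespace Pool.Agent.Work.P57.LI

open PowerSeries

theorem indep2 (I : Finset (ℕ × ℕ))
    (hI : ∀ p ∈ I, 1 ≤ p.1 ∧ 4 ∣ p.1 ∧ (p.2 % 4 = 0 ∨ p.2 % 4 = 1))
    (hd : ∀ p ∈ I, ∀ q ∈ I, p ≠ q → p.1 = q.1 → ¬ Cong p q)
    (c : ℕ × ℕ → PowerSeries (ZMod 2)) (hc : ∀ p ∈ I, IsAlgebraic (Polynomial (ZMod 2)) (c p))
    (h : IsAlgebraic (Polynomial (ZMod 2)) (∑ p ∈ I, c p * F p)) : ∀ p ∈ I, c p = 0 := by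
  classical
  have h1 : ∀ p : {p // p ∈ I}, ∃ k M : ℕ, Odd M ∧ p.1.1 = 2 ^ k * M := fun p =>
    Nat.exists_eq_two_pow_mul_odd (by have := (hI p.1 p.2).1; omega)
  choose k M hM hkM using h1
  have hk : ∀ p, 2 ≤ k p := by
    intro p
    by_contra hk
    have h4 := (hI p.1 p.2).2.1
    rw [hkM p] at h4
    have h5 : k p = 0 ∨ k p = 1 := by omega
    obtain ⟨r, hr⟩ := hM p
    rcases h5 with h5 | h5 <;> rw [h5, hr] at h4 <;> omega
  have h2 := core2 k M (fun p : {p // p ∈ I} => p.1.2) hk hM (fun p => (hI p.1 p.2).2.2) (by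
    intro p q hpq hA hcon
    rw [← hkM p, ← hkM q] at hcon hA
    exact hd p.1 p.2 q.1 q.2 (fun h => hpq (Subtype.ext h)) hA hcon) (fun p => c p.1)
    (fun p => hc p.1 p.2) (by
      have h3 : (∑ p : {p // p ∈ I}, c p.1 * PowerSeries.mk fun m =>
          (pa (2 ^ k p * M p * m + p.1.2) : ZMod 2)) = ∑ p ∈ I, c p * F p := by
        rw [← Finset.sum_coe_sort I (fun p => c p * F p)]
        refine Finset.sum_congr rfl fun p _ => ?_
        rw [← hkM p]
        rfl
      rw [h3]
      exact h)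
  intro p hp
  exact h2 ⟨p, hp⟩

/-- independence of all the series with `B < A` -/
theorem indep2' (I : Finset (ℕ × ℕ))
    (hI : ∀ p ∈ I, 1 ≤ p.1 ∧ 4 ∣ p.1 ∧ (p.2 % 4 = 0 ∨ p.2 % 4 = 1))
    (hlt : ∀ p ∈ I, p.2 < p.1)
    (c : ℕ × ℕ → PowerSeries (ZMod 2)) (hc : ∀ p ∈ I, IsAlgebraic (Polynomial (ZMod 2)) (c p))
    (h : IsAlgebraic (Polynomial (ZMod 2)) (∑ p ∈ I, c p * F p)) : ∀ p ∈ I, c p = 0 := by
  refine indep2 I hI ?_ c hc h
  intro p hp q hq hpq hA hcon
  have hrp : red p = p := by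
    unfold red
    rw [Nat.mod_eq_of_lt (hlt p hp)]
  have hrq : red q = q := by
    unfold red
    rw [Nat.mod_eq_of_lt (hlt q hq)]
  have h1 := red_eq (hI p hp).1 hA (by rw [hrp, hrq]; exact hcon)
  rw [hrp, hrq] at h1
  exact hpq h1

/-- several progressions, arbitrary shifts -/
theorem shift_parity2 (T : Finset (ℕ × ℕ)) (hne : T.Nonempty)
    (hT : ∀ p ∈ T, 1 ≤ p.1 ∧ 4 ∣ p.1 ∧ (p.2 % 4 = 0 ∨ p.2 % 4 = 1))
 :
    {m : ℕ | Odd (∑ p ∈ T, pa (p.1 * m + p.2))}.Infinite ∧
      {m : ℕ | Even (∑ p ∈ T, pa (p.1 * m + p.2))}.Infinite := by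
  classical
  have key : ¬ ({m : ℕ | Odd (∑ p ∈ T, pa (p.1 * m + p.2))}.Finite ∨
      {m : ℕ | Even (∑ p ∈ T, pa (p.1 * m + p.2))}.Finite) := by
    intro h
    have h1 := alg_of_eventually _ h
    set G : PowerSeries (ZMod 2) := PowerSeries.mk fun m =>
      ((∑ p ∈ T, pa (p.1 * m + p.2) : ℕ) : ZMod 2) with hG
    set U := ∑ p ∈ T, p.2 / p.1 with hU
    have htU : ∀ p ∈ T, p.2 / p.1 ≤ U := fun p hp =>
      Finset.single_le_sum (f := fun p : ℕ × ℕ => p.2 / p.1) (fun _ _ => Nat.zero_le _) hp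
    set J : Finset (ℕ × ℕ) := T.image red with hJ
    set c : ℕ × ℕ → PowerSeries (ZMod 2) := fun q =>
      ∑ p ∈ T.filter (fun p => red p = q), (X : PowerSeries (ZMod 2)) ^ (U - p.2 / p.1) with hc
    -- a shift
    have hshift : ∀ p ∈ T, X ^ U * F p =
        X ^ (U - p.2 / p.1) * F (red p) -
          X ^ (U - p.2 / p.1) * (PowerSeries.mk fun m => if m < p.2 / p.1 then
            (pa (p.1 * m + p.2 % p.1) : ZMod 2) else 0) := by
      intro p hp
      have h2 : X ^ (p.2 / p.1) * F p =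
          F (red p) - (PowerSeries.mk fun m => if m < p.2 / p.1 then
            (pa (p.1 * m + p.2 % p.1) : ZMod 2) else 0) := by
        ext m
        unfold F red
        rw [PowerSeries.coeff_X_pow_mul', map_sub, PowerSeries.coeff_mk, PowerSeries.coeff_mk,
          PowerSeries.coeff_mk]
        simp only
        by_cases hm : p.2 / p.1 ≤ m
        · rw [if_pos hm, if_neg (by omega), sub_zero]
          have h3 : p.1 * (m - p.2 / p.1) + p.2 = p.1 * m + p.2 % p.1 := by
            obtain ⟨d, rfl⟩ := Nat.exists_eq_add_of_le hm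
            have h4 := Nat.div_add_mod p.2 p.1
            rw [Nat.add_sub_cancel_left, Nat.mul_add]
            omega
          rw [h3]
        · rw [if_neg hm, if_pos (by omega), sub_self]
      rw [← mul_sub, ← h2, ← mul_assoc, ← _root_.pow_add, Nat.sub_add_cancel (htU p hp)]
    have halgX : ∀ n : ℕ, IsAlgebraic (Polynomial (ZMod 2)) ((X : PowerSeries (ZMod 2)) ^ n) := by
      intro n
      refine MAIN.alg_of_finite _ ((Set.finite_singleton n).subset ?_)
      intro m hm
      rw [Set.mem_ofPred_eq, PowerSeries.coeff_X_pow] at hm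
      by_contra hne2
      rw [if_neg (by simpa using hne2)] at hm
      exact hm rfl
    have halgS : ∀ (ι : Type) (S : Finset ι) (f : ι → PowerSeries (ZMod 2)),
        (∀ i ∈ S, IsAlgebraic (Polynomial (ZMod 2)) (f i)) →
        IsAlgebraic (Polynomial (ZMod 2)) (∑ i ∈ S, f i) := by
      intro ι S f hf
      exact Finset.sum_induction _ (fun g => IsAlgebraic (Polynomial (ZMod 2)) g)
        (fun _ _ => IsAlgebraic.add) isAlgebraic_zero hf
    have hcalg : ∀ p ∈ J, IsAlgebraic (Polynomial (ZMod 2)) (c p) := fun p _ =>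
      halgS _ _ _ fun t _ => halgX _
    have hsum : ∑ q ∈ J, c q * F q = X ^ U * G + ∑ p ∈ T, X ^ (U - p.2 / p.1) *
        (PowerSeries.mk fun m => if m < p.2 / p.1 then
          (pa (p.1 * m + p.2 % p.1) : ZMod 2) else 0) := by
      have h2 : ∑ q ∈ J, c q * F q = ∑ p ∈ T, X ^ (U - p.2 / p.1) * F (red p) := by
        have h3 : ∀ q ∈ J, c q * F q =
            ∑ p ∈ T.filter (fun p => red p = q), X ^ (U - p.2 / p.1) * F (red p) := by
          intro q hq
          rw [hc]
          simp only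
          rw [Finset.sum_mul]
          refine Finset.sum_congr rfl ?_
          intro p hp
          rw [(Finset.mem_filter.1 hp).2]
        rw [Finset.sum_congr rfl h3]
        exact Finset.sum_fiberwise_of_maps_to (fun t ht => Finset.mem_image_of_mem _ ht) _
      have h4 : X ^ U * G = ∑ p ∈ T, X ^ U * F p := by
        rw [← Finset.mul_sum]
        congr 1
        ext m
        rw [hG, PowerSeries.coeff_mk, map_sum]
        push_cast
        exact Finset.sum_congr rfl fun t _ => by rw [F, PowerSeries.coeff_mk]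
      rw [h2, h4, ← Finset.sum_add_distrib]
      refine Finset.sum_congr rfl fun t ht => ?_
      rw [hshift t ht]
      ring
    have halg : IsAlgebraic (Polynomial (ZMod 2)) (∑ p ∈ J, c p * F p) := by
      rw [hsum]
      refine ((halgX U).mul h1).add (halgS _ _ _ fun p _ => (halgX _).mul ?_)
      refine MAIN.alg_of_finite _ ((Set.finite_lt_nat (p.2 / p.1)).subset ?_)
      intro m hm
      rw [Set.mem_ofPred_eq, PowerSeries.coeff_mk] at hm
      rw [Set.mem_ofPred_eq]
      by_contra hlt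
      rw [if_neg hlt] at hm
      exact hm rfl
    have hJI : ∀ p ∈ J, 1 ≤ p.1 ∧ 4 ∣ p.1 ∧ (p.2 % 4 = 0 ∨ p.2 % 4 = 1) := by
      intro q hq
      obtain ⟨p, hp, rfl⟩ := Finset.mem_image.1 hq
      obtain ⟨hA, h4, h6⟩ := hT p hp
      refine ⟨hA, h4, ?_⟩
      have h5 : p.2 % p.1 % 4 = p.2 % 4 := Nat.mod_mod_of_dvd p.2 h4
      unfold red
      simp only
      rw [h5]
      exact h6
    have hJd : ∀ p ∈ J, ∀ q ∈ J, p ≠ q → p.1 = q.1 → ¬ Cong p q := by
      intro p hp q hq hpq hA hcon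
      obtain ⟨t, ht, rfl⟩ := Finset.mem_image.1 hp
      obtain ⟨u, hu, rfl⟩ := Finset.mem_image.1 hq
      exact hpq (red_eq (hT t ht).1 hA hcon)
    have hzero := indep2 J hJI hJd c hcalg halg
    obtain ⟨t0, ht0⟩ := hne
    have h2 := hzero (red t0) (Finset.mem_image_of_mem _ ht0)
    have h3 := congrArg (PowerSeries.coeff (U - t0.2 / t0.1)) h2
    rw [hc] at h3
    simp only at h3
    rw [map_sum, map_zero, Finset.sum_eq_single t0] at h3
    · rw [PowerSeries.coeff_X_pow, if_pos rfl] at h3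
      exact one_ne_zero h3
    · intro t ht htne
      rw [PowerSeries.coeff_X_pow, if_neg]
      intro h5
      apply htne
      obtain ⟨htT, htm⟩ := Finset.mem_filter.1 ht
      have h6 := htU t htT
      have h7 := htU t0 ht0
      have h8 : t.2 / t.1 = t0.2 / t0.1 := by omega
      have h9 := Nat.div_add_mod t.2 t.1
      have h10 := Nat.div_add_mod t0.2 t0.1
      unfold red at htm
      rw [Prod.mk.injEq] at htm
      obtain ⟨e1, e2⟩ := htm
      refine Prod.ext e1 ?_
      rw [← h9, ← h10, h8, e2, e1]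
    · intro h5
      exfalso
      apply h5
      rw [Finset.mem_filter]
      exact ⟨ht0, rfl⟩
  rw [not_or] at key
  exact key


end Pool.Agent.Work.P57.LI
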