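import Pool.Agent.Work.P57M.Interface
import Pool.Agent.Work.P57.FIN1

set_option autoImplicit false

namespace Pool.Agent.Work.P57

namespace FINM

open HahnSeries FIN1

theorem coef2 (hTH : Stmt_TH) (ζ : kkˣ) (m e' m0 e0 : ℕ) (hm : 0 < m) (he' : 0 < e')
    (hm0 : 0 < m0) (he0 : 0 < e0) :
    (single (-(4 * m * e' : ℤ)) (1 : kk) * Gs ζ (3 * m * e') ^ 8).coeff (-(4 * m0 * e0 : ℤ)) =
      if m * e' = m0 * e0 then 1 else 0 := by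
  have h := coef hTH ζ 1 (m * e') (m0 * e0) one_pos (by positivity) (by positivity)
  have e1 : (-(4 * ((1 : ℕ) : ℤ) * ((m * e' : ℕ) : ℤ))) = -(4 * m * e' : ℤ) := by push_cast; ring
  have e2 : (3 * ((1 : ℕ) : ℤ) * ((m * e' : ℕ) : ℤ)) = (3 * m * e' : ℤ) := by push_cast; ring
  have e3 : (-(4 * ((1 : ℕ) : ℤ) * ((m0 * e0 : ℕ) : ℤ))) = -(4 * m0 * e0 : ℤ) := by
    push_cast; ring
  rw [e1, e2, e3] at h
  exact h

theorem coreM (hTH : Stmt_TH) (hSIV : Stmt_SIV) (hGS : Stmt_GS) (hTAU : Stmt_TAUM)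
    (hMIN : Stmt_MIN) (k s : ℕ) (ι : Type) (J : Finset ι) (M B : ι → ℕ) (lam : ι → kk) (o : ι)
    (ho : o ∈ J) (hM : ∀ j ∈ J, Odd (M j)) (hs : 2 ≤ s) (h3M : ∀ j ∈ J, 3 * M j ∣ nn s)
    (hcong : ∀ j ∈ J, (M j : ℤ) * (6 * B o - 1) = (M o : ℤ) * (6 * B j - 1))
    (hrel : ∑ j ∈ J, lam j • (single (-4 * (n0 s / (3 * M j) : ℕ) : ℤ) (1 : kk) *
      (Th (fun n : ℕ => 3 * (n0 s / (3 * M j) : ℕ) * (n : ℤ))
        (fun n => if n % (2 ^ k * M j) = B j % (2 ^ k * M j) then (pa n : kk) else 0)) ^ 8) = 0)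
    (ξ : kkˣ) (hξ : IsPrimitiveRoot ξ (D0 s)) (r : ℤ) (e0 : ℕ) (he0 : 0 < e0)
    (hcl : (2 ^ (k + 1) : ℤ) ∣ e0 - (1 - 6 * B o)) (jf : ι → ℕ → ℤ)
    (hjf : ∀ j ∈ J, ∀ i ∈ II (M j),
      ((3 * M j : ℕ) : ℤ) ∣ jf j i * (r - i) - Int.gcd (r - i) (3 * M j : ℕ)) :
    ∃ (cc : ι → ℕ → kk) (e' : ι → ℕ → ℕ), (∀ j ∈ J, ∀ i ∈ II (M j), cc j i ≠ 0 ∧ 0 < e' j i ∧
      (¬ 3 * Int.gcd (r - i) (3 * M j : ℕ) ∣ 3 * M j →
        e' j i * 3 = (Int.gcd (r - i) (3 * M j : ℕ)) ^ 2) ∧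
      (3 * Int.gcd (r - i) (3 * M j : ℕ) ∣ 3 * M j →
        e' j i = (Int.gcd (r - i) (3 * M j : ℕ)) ^ 2 ∧
        cc j i ^ 3 = ((ξ ^ (12 * (n0 s / (3 * M j) : ℕ) * (i : ℤ)) *
          (ξ ^ (3 * (n0 s / (3 * M j) : ℕ) * jf j i *
            Int.gcd (r - i) (3 * M j : ℕ)))⁻¹ ^ 4 : kkˣ) : kk))) ∧
      ∑ j ∈ J, lam j * ∑ i ∈ II (M j),
        ((ξ ^ (-(24 * (n0 s / (3 * M j) : ℕ) * (i : ℤ) * B j)) : kkˣ) : kk) *
        (if n0 s / (3 * M j) * e' j i = n0 s / (3 * M o) * e0 then cc j i else 0) = 0 := by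
  classical
  have h3n0 : ∀ j ∈ J, 3 * M j ∣ n0 s := by
    intro j hj
    rw [n0_eq]
    exact Dvd.dvd.mul_right (h3M j hj) _
  have hm0' : ∀ j ∈ J, n0 s / (3 * M j) * (3 * M j) = n0 s := fun j hj =>
    Nat.div_mul_cancel (h3n0 j hj)
  have hodd : Odd (n0 s) := n0_odd s (by omega)
  have hm0odd : ∀ j ∈ J, Odd (n0 s / (3 * M j)) := by
    intro j hj
    have h := hodd
    rw [← hm0' j hj] at h
    exact (Nat.odd_mul.1 h).1
  have hy0 : ∀ j ∈ J, ∃ y : ℕ → KK,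
      (∀ i, y i ^ 3 * (Del (ξ ^ (3 * (n0 s / (3 * M j) : ℕ) * (i : ℤ)))
          (3 * (n0 s / (3 * M j) : ℕ)) *
        Del (ξ ^ (9 * (n0 s / (3 * M j) : ℕ) * (i : ℤ))) (9 * (n0 s / (3 * M j) : ℕ))) =
          C ((ξ ^ (12 * (n0 s / (3 * M j) : ℕ) * (i : ℤ)) : kkˣ) : kk)) ∧
      ∑ i ∈ II (M j),
        ((ξ ^ (-(24 * (n0 s / (3 * M j) : ℕ) * (i : ℤ) * B j)) : kkˣ) : kk) •
          gr (k + 3) (((24 * (n0 s / (3 * M j) : ℕ) * B j - 4 * (n0 s / (3 * M j) : ℕ) : ℤ)) :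
            ZMod (2 ^ (k + 3))) (y i) =
      single (-4 * (n0 s / (3 * M j) : ℕ) : ℤ) 1 *
        (Th (fun n : ℕ => 3 * (n0 s / (3 * M j) : ℕ) * (n : ℤ))
          (fun n => if n % (2 ^ k * M j) = B j % (2 ^ k * M j) then (pa n : kk) else 0)) ^ 8 := by
    intro j hj
    obtain ⟨y, -, hy3, hsum⟩ := hSIV hGS s ξ (M j) k (B j) (by omega) hξ (h3n0 j hj)
      (hM j hj).pos
    exact ⟨y, hy3, hsum⟩
  choose! y hy3 hysum using hy0
  have hrel2 : ∑ a ∈ J.sigma (fun j => II (M j)),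
      (lam a.1 * ((ξ ^ (-(24 * (n0 s / (3 * M a.1) : ℕ) * (a.2 : ℤ) * B a.1)) : kkˣ) : kk)) •
        gr (k + 3) (((24 * (n0 s / (3 * M a.1) : ℕ) * B a.1 - 4 * (n0 s / (3 * M a.1) : ℕ) : ℤ)) :
            ZMod (2 ^ (k + 3))) (y a.1 a.2) = 0 := by
    rw [Finset.sum_sigma, ← hrel]
    refine Finset.sum_congr rfl fun j hj => ?_
    rw [← hysum j hj, Finset.smul_sum]
    refine Finset.sum_congr rfl fun i _ => ?_
    rw [mul_smul]
  obtain ⟨y', hy', hsum'⟩ := hTAU s ξ hs hξ r (k + 3) (Σ _ : ι, ℕ) (J.sigma (fun j => II (M j)))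
    (fun a => 3 * M a.1) (fun a => a.2)
    (fun a => lam a.1 * ((ξ ^ (-(24 * (n0 s / (3 * M a.1) : ℕ) * (a.2 : ℤ) * B a.1)) : kkˣ) : kk))
    (fun a => y a.1 a.2)
    (fun a => (((24 * (n0 s / (3 * M a.1) : ℕ) * B a.1 - 4 * (n0 s / (3 * M a.1) : ℕ) : ℤ)) :
            ZMod (2 ^ (k + 3))))
    (fun a ha => ⟨h3M a.1 (Finset.mem_sigma.1 ha).1, Dvd.intro _ rfl⟩)
    (fun a ha => hy3 a.1 (Finset.mem_sigma.1 ha).1 a.2) hrel2
  have hmo : 0 < n0 s / (3 * M o) := (hm0odd o ho).pos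
  have key : ∀ j ∈ J, ∀ i ∈ II (M j), ∃ (c : kk) (e : ℕ), c ≠ 0 ∧ 0 < e ∧
      (¬ 3 * Int.gcd (r - i) (3 * M j : ℕ) ∣ 3 * M j →
        e * 3 = (Int.gcd (r - i) (3 * M j : ℕ)) ^ 2) ∧
      (3 * Int.gcd (r - i) (3 * M j : ℕ) ∣ 3 * M j →
        e = (Int.gcd (r - i) (3 * M j : ℕ)) ^ 2 ∧
        c ^ 3 = ((ξ ^ (12 * (n0 s / (3 * M j) : ℕ) * (i : ℤ)) *
          (ξ ^ (3 * (n0 s / (3 * M j) : ℕ) * jf j i *
            Int.gcd (r - i) (3 * M j : ℕ)))⁻¹ ^ 4 : kkˣ) : kk)) ∧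
      (y' ⟨j, i⟩).coeff (-(4 * (n0 s / (3 * M o) : ℕ) * e0 : ℤ)) =
        if n0 s / (3 * M j) * e = n0 s / (3 * M o) * e0 then c else 0 := by
    intro j hj i hi
    obtain ⟨j', hj'⟩ := bez (r - i) (3 * M j / 3)
    have h1 := hy' ⟨j, i⟩ (Finset.mem_sigma.2 ⟨hj, hi⟩) (jf j i) j' (hjf j hj i hi) hj'
    simp only at h1
    obtain ⟨ζ', e', he', hG, hc1, hc2⟩ := hMIN hGS s ξ (3 * M j) (r - i) (jf j i) j' (by omega) hξ
      (h3n0 j hj) (Dvd.intro _ rfl) (by have := (hM j hj).pos; omega) (hjf j hj i hi) hj'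
    obtain ⟨c, hc0, hc3, hY⟩ := shape ζ' (4 * (n0 s / (3 * M j) : ℕ) * e') _ (Units.ne_zero _)
      (y' ⟨j, i⟩) _ _ h1 (by
      rw [hG]
      congr 1
      have : (12 * ((n0 s / (3 * M j) : ℕ) : ℤ) * e') =
        3 * (4 * ((n0 s / (3 * M j) : ℕ) : ℤ) * e') := by ring
      rw [this])
    refine ⟨c, e', hc0, he', hc1, ?_, ?_⟩
    · intro hd
      obtain ⟨q1, q2⟩ := hc2 hd
      refine ⟨q1, ?_⟩
      rw [hc3, ← Units.val_mul, q2, inv_pow]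
    · rw [hY, C_mul_eq_smul, coeff_smul, coef2 hTH ζ' (n0 s / (3 * M j)) e' (n0 s / (3 * M o)) e0
        (hm0odd j hj).pos he' hmo he0]
      split_ifs
      · rw [smul_eq_mul, mul_one]
      · rw [smul_zero]
  choose! cc e' hcc using key
  refine ⟨cc, e', fun j hj i hi => ⟨(hcc j hj i hi).1, (hcc j hj i hi).2.1,
    (hcc j hj i hi).2.2.1, (hcc j hj i hi).2.2.2.1⟩, ?_⟩
  have hco := congrArg (fun f : KK => f.coeff (-(4 * (n0 s / (3 * M o) : ℕ) * e0 : ℤ))) hsum'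
  simp only [coeff_sum, coeff_zero] at hco
  rw [Finset.sum_sigma] at hco
  refine Eq.trans (Finset.sum_congr rfl fun j hj => ?_) hco
  rw [Finset.mul_sum]
  refine Finset.sum_congr rfl fun i hi => ?_
  rw [coeff_smul, smul_eq_mul]
  refine Eq.trans ?_ (mul_assoc (lam j) _ _).symm
  congr 2
  rw [← (hcc j hj i hi).2.2.2.2]
  unfold gr
  simp only
  rw [if_pos]
  rw [ZMod.intCast_eq_intCast_iff_dvd_sub]
  -- the class
  have hmj : ((n0 s / (3 * M j) : ℕ) : ℤ) * (6 * B j - 1) =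
      ((n0 s / (3 * M o) : ℕ) : ℤ) * (6 * B o - 1) := by
    have e1 : ((n0 s / (3 * M j) : ℕ) : ℤ) * (3 * (M j : ℤ)) = n0 s := by
      exact_mod_cast hm0' j hj
    have e2 : ((n0 s / (3 * M o) : ℕ) : ℤ) * (3 * (M o : ℤ)) = n0 s := by
      exact_mod_cast hm0' o ho
    have hMj : (M j : ℤ) ≠ 0 := by exact_mod_cast (hM j hj).pos.ne'
    have hMo : (M o : ℤ) ≠ 0 := by exact_mod_cast (hM o ho).pos.ne'
    apply mul_right_cancel₀ (b := 3 * (M j : ℤ) * (M o : ℤ)) (by positivity)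
    have h := hcong j hj
    calc ((n0 s / (3 * M j) : ℕ) : ℤ) * (6 * B j - 1) * (3 * (M j : ℤ) * (M o : ℤ))
        = (((n0 s / (3 * M j) : ℕ) : ℤ) * (3 * (M j : ℤ))) * ((M o : ℤ) * (6 * B j - 1)) := by ring
      _ = (((n0 s / (3 * M o) : ℕ) : ℤ) * (3 * (M o : ℤ))) * ((M j : ℤ) * (6 * B o - 1)) := by
          rw [e1, e2, h]
      _ = _ := by ring
  obtain ⟨w, hw⟩ := hcl
  clear hcc hco hsum' hy' hrel2 hysum hy3 hrel
  generalize n0 s / (3 * M j) = mj at hmj ⊢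
  generalize n0 s / (3 * M o) = mo at hmj ⊢
  refine ⟨(mo : ℤ) * w, ?_⟩
  push_cast
  have h2k : (2 : ℤ) ^ (k + 3) = 4 * 2 ^ (k + 1) := by ring
  rw [h2k]
  linear_combination (4 * (mo : ℤ)) * hw + 4 * hmj

/-- if the other levels do not reach the exponent `e0` -/
theorem coreO (hTH : Stmt_TH) (hSIV : Stmt_SIV) (hGS : Stmt_GS) (hTAU : Stmt_TAUM)
    (hMIN : Stmt_MIN) (k s : ℕ) (ι : Type) (J : Finset ι) (M B : ι → ℕ) (lam : ι → kk) (o : ι)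
    (ho : o ∈ J) (hM : ∀ j ∈ J, Odd (M j)) (hs : 2 ≤ s) (h3M : ∀ j ∈ J, 3 * M j ∣ nn s)
    (hcong : ∀ j ∈ J, (M j : ℤ) * (6 * B o - 1) = (M o : ℤ) * (6 * B j - 1))
    (hrel : ∑ j ∈ J, lam j • (single (-4 * (n0 s / (3 * M j) : ℕ) : ℤ) (1 : kk) *
      (Th (fun n : ℕ => 3 * (n0 s / (3 * M j) : ℕ) * (n : ℤ))
        (fun n => if n % (2 ^ k * M j) = B j % (2 ^ k * M j) then (pa n : kk) else 0)) ^ 8) = 0)
    (ξ : kkˣ) (hξ : IsPrimitiveRoot ξ (D0 s)) (hlam : lam o ≠ 0) (r : ℤ) (e0 : ℕ) (he0 : 0 < e0)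
    (hcl : (2 ^ (k + 1) : ℤ) ∣ e0 - (1 - 6 * B o))
    (hno : ∀ j ∈ J, j ≠ o → ∀ d e : ℕ, d ∣ 3 * M j → 0 < e → (¬ 3 * d ∣ 3 * M j → e * 3 = d ^ 2) →
      (3 * d ∣ 3 * M j → e = d ^ 2) → e * M o ≠ e0 * M j) (jf : ℕ → ℤ)
    (hjf : ∀ i ∈ II (M o),
      ((3 * M o : ℕ) : ℤ) ∣ jf i * (r - i) - Int.gcd (r - i) (3 * M o : ℕ)) :
    ∃ (cc : ℕ → kk) (e' : ℕ → ℕ), (∀ i ∈ II (M o), cc i ≠ 0 ∧ 0 < e' i ∧
      (¬ 3 * Int.gcd (r - i) (3 * M o : ℕ) ∣ 3 * M o →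
        e' i * 3 = (Int.gcd (r - i) (3 * M o : ℕ)) ^ 2) ∧
      (3 * Int.gcd (r - i) (3 * M o : ℕ) ∣ 3 * M o →
        e' i = (Int.gcd (r - i) (3 * M o : ℕ)) ^ 2 ∧
        cc i ^ 3 = ((ξ ^ (12 * (n0 s / (3 * M o) : ℕ) * (i : ℤ)) *
          (ξ ^ (3 * (n0 s / (3 * M o) : ℕ) * jf i *
            Int.gcd (r - i) (3 * M o : ℕ)))⁻¹ ^ 4 : kkˣ) : kk))) ∧
      ∑ i ∈ II (M o),
        ((ξ ^ (-(24 * (n0 s / (3 * M o) : ℕ) * (i : ℤ) * B o)) : kkˣ) : kk) *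
        (if e' i = e0 then cc i else 0) = 0 := by
  classical
  have hex : ∀ (j : ι) (i : ℕ), ∃ z : ℤ, (j = o → z = jf i) ∧ (j ≠ o →
      ((3 * M j : ℕ) : ℤ) ∣ z * (r - i) - Int.gcd (r - i) (3 * M j : ℕ)) := by
    intro j i
    by_cases h : j = o
    · exact ⟨jf i, fun _ => rfl, fun h2 => absurd h h2⟩
    · obtain ⟨z, hz⟩ := bez (r - i) (3 * M j)
      exact ⟨z, fun h2 => absurd h2 h, fun _ => hz⟩
  choose jF hjF1 hjF2 using hex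
  have h3n0 : ∀ j ∈ J, 3 * M j ∣ n0 s := by
    intro j hj
    rw [n0_eq]
    exact Dvd.dvd.mul_right (h3M j hj) _
  have hm0' : ∀ j ∈ J, n0 s / (3 * M j) * (3 * M j) = n0 s := fun j hj =>
    Nat.div_mul_cancel (h3n0 j hj)
  have hn0 : 0 < n0 s := (n0_odd s (by omega)).pos
  obtain ⟨cc, e', h1, h2⟩ := coreM hTH hSIV hGS hTAU hMIN k s ι J M B lam o ho hM hs h3M hcong
    hrel ξ hξ r e0 he0 hcl jF (by
      intro j hj i hi
      by_cases h : j = o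
      · rw [hjF1 j i h]
        subst h
        exact hjf i hi
      · exact hjF2 j i h)
  refine ⟨cc o, e' o, ?_, ?_⟩
  · intro i hi
    have h := h1 o ho i hi
    rw [hjF1 o i rfl] at h
    exact h
  · rw [Finset.sum_eq_single_of_mem o ho] at h2
    · have h3 := (mul_eq_zero.1 h2).resolve_left hlam
      refine Eq.trans (Finset.sum_congr rfl fun i _ => ?_) h3
      have hmpos : 0 < n0 s / (3 * M o) := by
        rcases Nat.eq_zero_or_pos (n0 s / (3 * M o)) with h | h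
        · have := hm0' o ho
          rw [h, zero_mul] at this
          omega
        · exact h
      by_cases h : e' o i = e0
      · rw [if_pos h, if_pos (by rw [h])]
      · have h5 : ¬ (n0 s / (3 * M o) * e' o i = n0 s / (3 * M o) * e0) := fun h4 =>
          h (Nat.eq_of_mul_eq_mul_left hmpos h4)
        rw [if_neg h, if_neg h5]
    · intro j hj hjo
      rw [Finset.sum_eq_zero, mul_zero]
      intro i hi
      obtain ⟨-, q2, q3, q4⟩ := h1 j hj i hi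
      rw [if_neg, mul_zero]
      intro h4
      have hd : Int.gcd (r - i) (3 * M j : ℕ) ∣ 3 * M j := by
        have : ((Int.gcd (r - i) (3 * M j : ℕ) : ℕ) : ℤ) ∣ ((3 * M j : ℕ) : ℤ) :=
          Int.gcd_dvd_right _ _
        exact_mod_cast this
      refine hno j hj hjo _ (e' j i) hd q2 q3 (fun h => (q4 h).1) ?_
      -- `m0_j e = m0_o e0`
      have e1 := hm0' j hj
      have e2 := hm0' o ho
      have hmpos : 0 < n0 s / (3 * M o) := by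
        rcases Nat.eq_zero_or_pos (n0 s / (3 * M o)) with h | h
        · rw [h, zero_mul] at e2
          omega
        · exact h
      refine Nat.eq_of_mul_eq_mul_left (show 0 < 3 * (n0 s / (3 * M o)) by positivity) ?_
      calc 3 * (n0 s / (3 * M o)) * (e' j i * M o)
          = (n0 s / (3 * M o) * (3 * M o)) * e' j i := by ring
        _ = (n0 s / (3 * M j) * (3 * M j)) * e' j i := by rw [e1, e2]
        _ = 3 * M j * (n0 s / (3 * M j) * e' j i) := by ring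
        _ = 3 * M j * (n0 s / (3 * M o) * e0) := by rw [h4]
        _ = 3 * (n0 s / (3 * M o)) * (e0 * M j) := by ring

end FINM

end Pool.Agent.Work.P57
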