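import Pool.Agent.Work.P57.Interface

set_option autoImplicit false

namespace Pool.Agent.Work.P57

open HahnSeries

/-- BLOCK TAUM: as TAU, for several levels `N a` at the same time (the automorphism depends only on
`r` and `s`). -/
def Stmt_TAUM : Prop := ∀ (s : ℕ) (ξ : kkˣ), 2 ≤ s → IsPrimitiveRoot ξ (D0 s) →
  ∀ (r : ℤ) (t : ℕ) (ι : Type) (I : Finset ι) (N ix : ι → ℕ) (μ : ι → kk) (y : ι → KK)
    (c : ι → ZMod (2 ^ t)), (∀ a ∈ I, N a ∣ nn s ∧ 3 ∣ N a) →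
  (∀ a ∈ I, y a ^ 3 * (Del (ξ ^ (3 * (n0 s / N a : ℕ) * (ix a : ℤ))) (3 * (n0 s / N a : ℕ)) *
    Del (ξ ^ (9 * (n0 s / N a : ℕ) * (ix a : ℤ))) (9 * (n0 s / N a : ℕ))) =
      C ((ξ ^ (12 * (n0 s / N a : ℕ) * (ix a : ℤ)) : kkˣ) : kk)) →
  ∑ a ∈ I, μ a • gr t (c a) (y a) = 0 →
  ∃ y' : ι → KK, (∀ a ∈ I, ∀ j j' : ℤ, (N a : ℤ) ∣ j * (r - ix a) - Int.gcd (r - ix a) (N a) →
    ((N a / 3 : ℕ) : ℤ) ∣ j' * (r - ix a) - Int.gcd (r - ix a) (N a / 3 : ℕ) →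
    y' a ^ 3 * (Del (ξ ^ (3 * (n0 s / N a : ℕ) * j * Int.gcd (r - ix a) (N a)))
        (3 * (n0 s / N a : ℕ) * (Int.gcd (r - ix a) (N a)) ^ 2) *
      Del (ξ ^ (9 * (n0 s / N a : ℕ) * j' * Int.gcd (r - ix a) (N a / 3 : ℕ)))
        (9 * (n0 s / N a : ℕ) * (Int.gcd (r - ix a) (N a / 3 : ℕ)) ^ 2)) =
      C ((ξ ^ (12 * (n0 s / N a : ℕ) * (ix a : ℤ)) : kkˣ) : kk)) ∧
    ∑ a ∈ I, μ a • gr t (c a) (y' a) = 0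

end Pool.Agent.Work.P57
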