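import Pool.Agent.Work.P57.TAU
import Pool.Agent.Work.P57M.Interface

set_option autoImplicit false

namespace Pool.Agent.Work.P57

open HahnSeries in
theorem blk_TAUM (hGS : Stmt_GS) (hMIN : Stmt_MIN) (hMAPS : Stmt_MAPS) (hGGC : Stmt_GGC)
    (hDLH : Stmt_DLH) (hGRX : Stmt_GRX) (hEXT : Stmt_EXT) : Stmt_TAUM := by
  intro s ξ hs hξ r t ι I N ix μ y c hN3d hy hsum
  have hn3 := TAU.nn_ge s hs
  have hn0pos : 0 < n0 s := by
    rw [TAU.n0_eq]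
    positivity
  have hD : (0 : ℤ) < D0 s := by
    unfold D0
    have : 0 < 3 * n0 s := by omega
    exact_mod_cast this
  obtain ⟨τ, hact, hvth⟩ := hEXT s ξ hs hξ (r : ZMod (nn s))
  have hlt : Fact (1 < nn s) := ⟨by omega⟩
  have hdet : IsUnit (!![0, 1; -1, (r : ZMod (nn s))] :
      Matrix (Fin 2) (Fin 2) (ZMod (nn s))).det := by
    rw [Matrix.det_fin_two_of]
    simp
  have hGG := hGRX s ξ hs hξ τ _ hdet hact hvth t
  obtain ⟨gc, gsm, gi, -, g3⟩ := hGGC (D0 s) hD τ t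
  obtain ⟨mc, -, msm, mi, muniq, -, msum⟩ := hMAPS (D0 s) hD τ
  have key : ∀ a ∈ I, ∃ y' : KK, GG τ t (y a) y' ∧ ∀ j j' : ℤ,
      (N a : ℤ) ∣ j * (r - ix a) - Int.gcd (r - ix a) (N a) →
      ((N a / 3 : ℕ) : ℤ) ∣ j' * (r - ix a) - Int.gcd (r - ix a) (N a / 3 : ℕ) →
      y' ^ 3 * (Del (ξ ^ (3 * (n0 s / N a : ℕ) * j * Int.gcd (r - ix a) (N a)))
          (3 * (n0 s / N a : ℕ) * (Int.gcd (r - ix a) (N a)) ^ 2) *
        Del (ξ ^ (9 * (n0 s / N a : ℕ) * j' * Int.gcd (r - ix a) (N a / 3 : ℕ)))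
          (9 * (n0 s / N a : ℕ) * (Int.gcd (r - ix a) (N a / 3 : ℕ)) ^ 2)) =
        C ((ξ ^ (12 * (n0 s / N a : ℕ) * (ix a : ℤ)) : kkˣ) : kk) := by
    intro a ha
    obtain ⟨hN, h3⟩ := hN3d a ha
    have hN0 : 0 < N a := Nat.pos_of_dvd_of_pos hN (by omega)
    have hNn0 : N a ∣ n0 s := by
      rw [TAU.n0_eq]
      exact Dvd.dvd.mul_right hN _
    obtain ⟨N3, hN3⟩ := h3
    have hN3' : N a / 3 = N3 := by omega
    have hN3pos : 0 < N3 := by omega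
    have hN3n : N3 ∣ nn s := (Dvd.intro_left _ hN3.symm).trans hN
    have hm3 : n0 s / N3 = 3 * (n0 s / N a) := by
      obtain ⟨w, hw⟩ := hNn0
      rw [hw, hN3, Nat.mul_div_cancel_left _ (by omega), mul_comm 3 N3, mul_assoc,
        Nat.mul_div_cancel_left _ hN3pos]
    -- images of the two Deltas
    have del1 : ∀ (i : ℕ) (j : ℤ), (N a : ℤ) ∣ j * (r - i) - Int.gcd (r - i) (N a) →
        GG τ t (Del (ξ ^ (3 * (n0 s / N a : ℕ) * (i : ℤ))) (3 * (n0 s / N a : ℕ)))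
        (Del (ξ ^ (3 * (n0 s / N a : ℕ) * j * Int.gcd (r - i) (N a)))
          (3 * (n0 s / N a : ℕ) * (Int.gcd (r - i) (N a)) ^ 2)) := fun i j hj =>
      TAU.delmap hDLH s ξ hs hξ r τ hact t hGG (N a) hN hN0 i j hj
    have del2 : ∀ (i : ℕ) (j' : ℤ),
        ((N a / 3 : ℕ) : ℤ) ∣ j' * (r - i) - Int.gcd (r - i) (N a / 3 : ℕ) →
        GG τ t (Del (ξ ^ (9 * (n0 s / N a : ℕ) * (i : ℤ))) (9 * (n0 s / N a : ℕ)))
        (Del (ξ ^ (9 * (n0 s / N a : ℕ) * j' * Int.gcd (r - i) (N a / 3 : ℕ)))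
          (9 * (n0 s / N a : ℕ) * (Int.gcd (r - i) (N a / 3 : ℕ)) ^ 2)) := by
      intro i j' hj'
      rw [hN3'] at hj' ⊢
      have h := TAU.delmap hDLH s ξ hs hξ r τ hact t hGG N3 hN3n hN3pos i j' hj'
      rw [hm3] at h
      have e1 : (3 * ((3 * (n0 s / N a) : ℕ) : ℤ)) = 9 * ((n0 s / N a : ℕ) : ℤ) := by
        push_cast
        ring
      rw [e1] at h
      exact h
    obtain ⟨j0, hj0⟩ := TAU.bez (r - ix a) (N a)
    obtain ⟨j0', hj0'⟩ := TAU.bez (r - ix a) (N a / 3)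
    have g1 := del1 (ix a) j0 hj0
    have g2 := del2 (ix a) j0' hj0'
    obtain ⟨ζ', e', he', hG, -⟩ := hMIN hGS s ξ (N a) (r - ix a) j0 j0' (by omega) hξ hNn0
      (Dvd.intro _ hN3.symm) hN0 hj0 hj0'
    have hκ : ((ξ ^ (12 * (n0 s / N a : ℕ) * (ix a : ℤ)) : kkˣ) : kk) ≠ 0 := Units.ne_zero _
    have hCκ : (C ((ξ ^ (12 * (n0 s / N a : ℕ) * (ix a : ℤ)) : kkˣ) : kk) : KK) ≠ 0 := by
      rw [Ne, map_eq_zero]
      exact hκ
    obtain ⟨W, hW0, hW⟩ := TAU.exists_W ζ' (4 * (n0 s / N a : ℕ) * e') _ hκ _ _ (by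
      rw [hG]
      have : (12 * ((n0 s / N a : ℕ) : ℤ) * e') = 3 * (4 * ((n0 s / N a : ℕ) : ℤ) * e') := by ring
      rw [this])
    have hyi := hy a ha
    set A1 := Del (ξ ^ (3 * (n0 s / N a : ℕ) * (ix a : ℤ))) (3 * (n0 s / N a : ℕ)) with hA1
    set A2 := Del (ξ ^ (9 * (n0 s / N a : ℕ) * (ix a : ℤ))) (9 * (n0 s / N a : ℕ)) with hA2
    set B1 := Del (ξ ^ (3 * (n0 s / N a : ℕ) * j0 * Int.gcd (r - ix a) (N a)))
          (3 * (n0 s / N a : ℕ) * (Int.gcd (r - ix a) (N a)) ^ 2) with hB1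
    set B2 := Del (ξ ^ (9 * (n0 s / N a : ℕ) * j0' * Int.gcd (r - ix a) (N a / 3 : ℕ)))
          (9 * (n0 s / N a : ℕ) * (Int.gcd (r - ix a) (N a / 3 : ℕ)) ^ 2) with hB2
    set κ := ((ξ ^ (12 * (n0 s / N a : ℕ) * (ix a : ℤ)) : kkˣ) : kk) with hκd
    have hA : A1 * A2 ≠ 0 := by
      intro h
      rw [h, mul_zero] at hyi
      exact hCκ hyi.symm
    have hB : B1 * B2 ≠ 0 := by
      intro h
      rw [h, mul_zero] at hW
      exact hCκ hW.symm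
    have hy3 : y a ^ 3 = C κ * (A1 * A2)⁻¹ := by
      rw [eq_mul_inv_iff_mul_eq₀ hA]
      exact hyi
    have hW3 : W ^ 3 = C κ * (B1 * B2)⁻¹ := by
      rw [eq_mul_inv_iff_mul_eq₀ hB]
      exact hW
    have hgg : GG τ t (y a ^ 3) (W ^ 3) := by
      rw [hy3, hW3]
      exact (gsm _ _ _ _ (gc κ) (gi _ _ (gsm _ _ _ _ g1 g2).2)).2
    have hy0 : y a ≠ 0 := by
      intro h
      rw [h, zero_pow (by norm_num), zero_mul] at hyi
      exact hCκ hyi.symm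
    obtain ⟨hmem, -, -⟩ := hgg.1
    obtain ⟨ω, hω, hg⟩ := g3 (y a) W hy0 hmem hgg
    refine ⟨C ω * W, hg, ?_⟩
    intro j j' hj hj'
    have u1 := muniq _ _ _ g1.1 (del1 (ix a) j hj).1
    have u2 := muniq _ _ _ g2.1 (del2 (ix a) j' hj').1
    rw [← u1, ← u2, mul_pow, ← map_pow, hω, map_one, one_mul]
    exact hW
  choose! y' hy' using key
  refine ⟨y', fun a ha => (hy' a ha).2, ?_⟩
  have h1 : Maps τ (∑ a ∈ I, μ a • gr t (c a) (y a)) (∑ a ∈ I, μ a • gr t (c a) (y' a)) := by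
    apply msum
    intro a ha
    rw [← C_mul_eq_smul, ← C_mul_eq_smul]
    exact (msm _ _ _ _ (mc (μ a)) ((hy' a ha).1.2 (c a))).2
  exact ((mi _ _ h1).2.1).1 hsum

end Pool.Agent.Work.P57
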