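import Pool.Agent.Work.P57M.CASES
import Pool.Agent.Work.P57M.TAUM
import Pool.Agent.Work.P57M.Interface2
import Pool.Agent.Work.P57L.LI

set_option autoImplicit false

namespace Pool.Agent.Work.P57

theorem all_TAUM : Stmt_TAUM :=
  blk_TAUM all_GS all_MIN all_MAPS all_GGC all_DLH all_GRX all_EXT

namespace FINM

open HahnSeries FIN1 LI

theorem ZW (k m0 : ℕ) (hm : 0 < m0) (r : ℕ → kk) (hr : ∀ n, r n ^ 2 = r n) :
    single (-4 * (m0 : ℕ) : ℤ) (1 : kk) *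
      (Th (fun n : ℕ => 3 * (m0 : ℕ) * (n : ℤ)) r) ^ 8 =
    single (-((2 ^ (k - k) * (4 * m0) : ℕ) : ℤ)) 1 *
      Th (fun n : ℕ => ((2 ^ (k - k + 3) * (3 * m0) : ℕ) : ℤ) * (n : ℤ)) r := by
  have h3 : Th (fun n : ℕ => 3 * (m0 : ℕ) * (n : ℤ)) r =
      Th (fun n : ℕ => ((3 * m0 : ℕ) : ℤ) * (n : ℤ)) r := by
    congr 1
  have h8 : (8 : ℕ) = 2 ^ 3 := by norm_num
  rw [h3, h8, pow2 r hr _ (by positivity)]
  congr 2
  · congr 1
    rw [Nat.sub_self, pow_zero, one_mul]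
    push_cast
    ring
  · funext n
    rw [Nat.sub_self, zero_add]

/-- coefficients of `W` -/
theorem W_coeff' (s K k M B : ℕ) (hm : 0 < n0 s / (3 * M)) (m : ℤ) :
    (W s K k M B).coeff (((2 ^ (K - k) * (4 * (n0 s / (3 * M))) : ℕ) : ℤ) *
      (6 * (((2 ^ k * M : ℕ) : ℤ) * m + B) - 1)) = PP (((2 ^ k * M : ℕ) : ℤ) * m + B) := by
  set x : ℤ := ((2 ^ k * M : ℕ) : ℤ) * m + B with hx
  unfold PP
  by_cases h0 : 0 ≤ x
  · rw [if_pos h0]
    obtain ⟨n, hn⟩ := Int.eq_ofNat_of_zero_le h0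
    rw [hn, Int.toNat_natCast, W_coeff s K k M B hm n, if_pos]
    have h1 : (n : ℤ) ≡ B [ZMOD ((2 ^ k * M : ℕ) : ℤ)] := by
      rw [← hn, hx]
      exact Int.modEq_iff_dvd.2 ⟨-m, by ring⟩
    exact Int.natCast_modEq_iff.1 h1
  · rw [if_neg h0]
    by_contra hne
    obtain ⟨n, -, hn⟩ := W_supp s K k M B hm _ hne
    have h1 : ((2 ^ (K - k) * (4 * (n0 s / (3 * M))) : ℕ) : ℤ) ≠ 0 := by positivity
    have h2 := mul_left_cancel₀ h1 hn
    omega

theorem W_supp' (s K k M B : ℕ) (hm : 0 < n0 s / (3 * M)) (g : ℤ)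
    (hg : (W s K k M B).coeff g ≠ 0) : ∃ m : ℤ,
      g = ((2 ^ (K - k) * (4 * (n0 s / (3 * M))) : ℕ) : ℤ) *
        (6 * (((2 ^ k * M : ℕ) : ℤ) * m + B) - 1) := by
  obtain ⟨n, hn1, hn2⟩ := W_supp s K k M B hm g hg
  obtain ⟨u, hu⟩ : ((2 ^ k * M : ℕ) : ℤ) ∣ (n : ℤ) - B :=
    (Int.natCast_modEq_iff.2 hn1).symm.dvd
  refine ⟨u, ?_⟩
  rw [hn2]
  have : (n : ℤ) = ((2 ^ k * M : ℕ) : ℤ) * u + B := by linarith
  rw [this]

/-- the exponents of two levels of the same class agree -/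
theorem expo (s k : ℕ) (m1 m2 M1 M2 B1 B2 : ℕ) (h1 : m1 * (3 * M1) = n0 s)
    (h2 : m2 * (3 * M2) = n0 s) (hM1 : 0 < M1) (hM2 : 0 < M2)
    (hc : (M1 : ℤ) * (6 * B2 - 1) = (M2 : ℤ) * (6 * B1 - 1)) (m : ℤ) :
    (m1 : ℤ) * (6 * (((2 ^ k * M1 : ℕ) : ℤ) * m + B1) - 1) =
      (m2 : ℤ) * (6 * (((2 ^ k * M2 : ℕ) : ℤ) * m + B2) - 1) := by
  have e1 : (m1 : ℤ) * (3 * M1) = n0 s := by exact_mod_cast h1
  have e2 : (m2 : ℤ) * (3 * M2) = n0 s := by exact_mod_cast h2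
  have hz1 : (M1 : ℤ) ≠ 0 := by exact_mod_cast hM1.ne'
  have hz2 : (M2 : ℤ) ≠ 0 := by exact_mod_cast hM2.ne'
  apply mul_right_cancel₀ (b := 3 * (M1 : ℤ) * (M2 : ℤ)) (by positivity)
  push_cast
  calc (m1 : ℤ) * (6 * (2 ^ k * (M1 : ℤ) * m + B1) - 1) * (3 * (M1 : ℤ) * (M2 : ℤ))
      = ((m1 : ℤ) * (3 * M1)) * (6 * (2 ^ k * (M1 : ℤ) * M2 * m) + (M2 : ℤ) * (6 * B1 - 1)) := by
        ring
    _ = ((m2 : ℤ) * (3 * M2)) * (6 * (2 ^ k * (M1 : ℤ) * M2 * m) + (M1 : ℤ) * (6 * B2 - 1)) := by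
        rw [e1, e2, hc]
    _ = _ := by ring

end FINM

open HahnSeries FIN1 LI FINM in
theorem all_FAM : Stmt_FAM := by
  classical
  intro k hk ι J M B lam o ho hM hB hcong hlt hlam
  by_contra hcon
  push Not at hcon
  obtain ⟨Ms, s0, hdvd, hMso, -, -, hB0, hB1⟩ := all_SQ k (M o) (B o) hk (hM o ho) hB
  obtain ⟨w, hw⟩ := hdvd
  have hwodd : Odd w := by
    rw [hw] at hMso
    exact (Nat.odd_mul.1 hMso).2
  have hwpos : 0 < w := hwodd.pos
  obtain ⟨s, hs, hs3⟩ := exists_s (3 * ∏ j ∈ J, (M j * w))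
    (Nat.odd_mul.mpr ⟨by decide, Finset.prod_induction _ _
      (fun _ _ h1 h2 => Nat.odd_mul.mpr ⟨h1, h2⟩) odd_one
      fun j hj => Nat.odd_mul.mpr ⟨hM j hj, hwodd⟩⟩)
  have h3M : ∀ j ∈ J, 3 * (M j * w) ∣ nn s := fun j hj =>
    (mul_dvd_mul_left 3 (Finset.dvd_prod_of_mem (fun j => M j * w) hj)).trans hs3
  have hM' : ∀ j ∈ J, Odd (M j * w) := fun j hj => Nat.odd_mul.mpr ⟨hM j hj, hwodd⟩
  have hcong' : ∀ j ∈ J, ((M j * w : ℕ) : ℤ) * (6 * B o - 1) =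
      ((M o * w : ℕ) : ℤ) * (6 * B j - 1) := by
    intro j hj
    push_cast
    linear_combination (w : ℤ) * hcong j hj
  have hlt' : ∀ j ∈ J, j ≠ o → M j * w < M o * w := fun j hj hjo =>
    Nat.mul_lt_mul_of_pos_right (hlt j hj hjo) hwpos
  have h3n0 : ∀ j ∈ J, 3 * (M j * w) ∣ n0 s := by
    intro j hj
    rw [FIN1.n0_eq]
    exact Dvd.dvd.mul_right (h3M j hj) _
  have hm0' : ∀ j ∈ J, n0 s / (3 * (M j * w)) * (3 * (M j * w)) = n0 s := fun j hj =>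
    Nat.div_mul_cancel (h3n0 j hj)
  have hn0 : 0 < n0 s := (FIN1.n0_odd s (by omega)).pos
  have hmpos : ∀ j ∈ J, 0 < n0 s / (3 * (M j * w)) := by
    intro j hj
    rcases Nat.eq_zero_or_pos (n0 s / (3 * (M j * w))) with h | h
    · have := hm0' j hj
      rw [h, zero_mul] at this
      omega
    · exact h
  have hrel : ∑ j ∈ J, lam j • (single (-4 * (n0 s / (3 * (M j * w)) : ℕ) : ℤ) (1 : kk) *
      (Th (fun n : ℕ => 3 * (n0 s / (3 * (M j * w)) : ℕ) * (n : ℤ))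
        (fun n => if n % (2 ^ k * (M j * w)) = B j % (2 ^ k * (M j * w)) then (pa n : kk)
          else 0)) ^ 8) = 0 := by
    have h1 : ∀ j ∈ J, lam j • (single (-4 * (n0 s / (3 * (M j * w)) : ℕ) : ℤ) (1 : kk) *
      (Th (fun n : ℕ => 3 * (n0 s / (3 * (M j * w)) : ℕ) * (n : ℤ))
        (fun n => if n % (2 ^ k * (M j * w)) = B j % (2 ^ k * (M j * w)) then (pa n : kk)
          else 0)) ^ 8) = lam j • W s k k (M j * w) (B j) := by
      intro j hj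
      rw [ZW k _ (hmpos j hj) _ (r_sq _ (B j))]
      rfl
    rw [Finset.sum_congr rfl h1]
    ext g
    rw [HahnSeries.coeff_zero, HahnSeries.coeff_sum]
    by_cases hex : ∃ j ∈ J, (W s k k (M j * w) (B j)).coeff g ≠ 0
    · obtain ⟨j1, hj1, hne⟩ := hex
      obtain ⟨m, hm⟩ := W_supp' s k k (M j1 * w) (B j1) (hmpos j1 hj1) g hne
      have h2 : ∀ j ∈ J, (lam j • W s k k (M j * w) (B j)).coeff g =
          lam j * PP (((2 ^ k * M j : ℕ) : ℤ) * (w * m) + B j) := by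
        intro j hj
        have h3 : g = ((2 ^ (k - k) * (4 * (n0 s / (3 * (M j * w)))) : ℕ) : ℤ) *
            (6 * (((2 ^ k * (M j * w) : ℕ) : ℤ) * m + B j) - 1) := by
          rw [hm]
          have h4 := expo s k (n0 s / (3 * (M j1 * w))) (n0 s / (3 * (M j * w))) (M j1 * w)
            (M j * w) (B j1) (B j) (hm0' j1 hj1) (hm0' j hj) (hM' j1 hj1).pos (hM' j hj).pos
            (by
              have e1 := hcong' j hj
              have e2 := hcong' j1 hj1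
              have hne : ((M o * w : ℕ) : ℤ) ≠ 0 := by exact_mod_cast (hM' o ho).pos.ne'
              apply mul_left_cancel₀ hne
              calc ((M o * w : ℕ) : ℤ) * (((M j1 * w : ℕ) : ℤ) * (6 * B j - 1))
                  = ((M j1 * w : ℕ) : ℤ) * (((M o * w : ℕ) : ℤ) * (6 * B j - 1)) := by ring
                _ = ((M j1 * w : ℕ) : ℤ) * (((M j * w : ℕ) : ℤ) * (6 * B o - 1)) := by rw [e1]
                _ = ((M j * w : ℕ) : ℤ) * (((M j1 * w : ℕ) : ℤ) * (6 * B o - 1)) := by ring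
                _ = ((M j * w : ℕ) : ℤ) * (((M o * w : ℕ) : ℤ) * (6 * B j1 - 1)) := by rw [e2]
                _ = _ := by ring) m
          rw [Nat.sub_self, pow_zero, one_mul, one_mul]
          have h5 : ((4 * (n0 s / (3 * (M j1 * w))) : ℕ) : ℤ) =
            4 * ((n0 s / (3 * (M j1 * w)) : ℕ) : ℤ) := by push_cast; ring
          have h6 : ((4 * (n0 s / (3 * (M j * w))) : ℕ) : ℤ) =
            4 * ((n0 s / (3 * (M j * w)) : ℕ) : ℤ) := by push_cast; ring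
          rw [h5, h6, mul_assoc, mul_assoc, h4]
        rw [HahnSeries.coeff_smul, smul_eq_mul, h3,
          W_coeff' s k k (M j * w) (B j) (hmpos j hj) m]
        congr 2
        push_cast
        ring
      rw [Finset.sum_congr rfl h2]
      exact hcon (w * m)
    · push Not at hex
      refine Finset.sum_eq_zero fun j hj => ?_
      rw [HahnSeries.coeff_smul, hex j hj, smul_zero]
  obtain ⟨ξ, hξ⟩ := FIN1.exists_prim (D0 s) (by
    unfold D0
    exact Nat.odd_mul.2 ⟨by decide, FIN1.n0_odd s (by omega)⟩)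
  rcases hB with hB | hB
  · refine caseZeroM all_TH all_SIV all_GS all_TAUM all_MIN k s ι J (fun j => M j * w) B lam o ho
      hM' hs h3M hcong' hrel hlt' ξ hξ hlam ?_
    have h := hB0 hB
    rw [hw] at h
    exact h
  · refine caseOneM all_TH all_SIV all_GS all_TAUM all_MIN k s ι J (fun j => M j * w) B lam o ho
      hM' hs h3M hcong' hrel hlt' ξ hξ hlam ?_
    have h := hB1 hB
    rw [hw] at h
    exact h

end Pool.Agent.Work.P57
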