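import Pool.Agent.Work.P57M.FAM
import Pool.Agent.Work.P57L.COR

/-!
# Linear independence of the sieved series: all progressions
-/

set_option autoImplicit false

namespace Pool.Agent.Work.P57.LI

open HahnSeries FIN2aux

theorem CORE2.k_lt (a b M N : ℕ) (hM : Odd M) (x y v : ℤ) (hx : Odd x)
    (h : (2 ^ a * (M : ℤ)) * x - (2 ^ b * (N : ℤ)) * y =
      6 * (2 ^ a * (M : ℤ)) * (2 ^ b * (N : ℤ)) * v) (hlt : a < b) : False := by
  obtain ⟨d, hd⟩ : ∃ d, b = a + (d + 1) := ⟨b - a - 1, by omega⟩
  subst hd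
  have h1 : (M : ℤ) * x = 2 * (2 ^ d * N * y + 3 * M * (2 ^ (a + (d + 1)) * N) * v) := by
    apply mul_left_cancel₀ (a := (2 : ℤ) ^ a) (by positivity)
    have e1 : (2 : ℤ) ^ (a + (d + 1)) = 2 ^ a * (2 * 2 ^ d) := by ring
    rw [e1] at h ⊢
    linear_combination h
  have h2 : Odd ((M : ℤ) * x) := (by exact_mod_cast hM : Odd (M : ℤ)).mul hx
  rw [h1] at h2
  exact (Int.not_odd_iff_even.2 ⟨_, two_mul _⟩) h2

theorem core2 {ι : Type} [Fintype ι] (k M B : ι → ℕ) (hk : ∀ i, 2 ≤ k i)
    (hM : ∀ i, Odd (M i)) (hB : ∀ i, B i % 4 = 0 ∨ B i % 4 = 1)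
    (hI : ∀ i j, i ≠ j → 2 ^ k i * M i = 2 ^ k j * M j →
      ¬ ((6 * ((2 ^ k i * M i : ℕ) : ℤ) * ((2 ^ k j * M j : ℕ) : ℤ)) ∣
      ((2 ^ k j * M j : ℕ) : ℤ) * (6 * B i - 1) - ((2 ^ k i * M i : ℕ) : ℤ) * (6 * B j - 1)))
    (c : ι → PowerSeries (ZMod 2)) (hc : ∀ i, IsAlgebraic (Polynomial (ZMod 2)) (c i))
    (h : IsAlgebraic (Polynomial (ZMod 2))
      (∑ i, c i * PowerSeries.mk fun m => (pa (2 ^ k i * M i * m + B i) : ZMod 2))) :
    ∀ i, c i = 0 := by
  classical
  obtain ⟨s, hs, hs3⟩ := exists_s (3 * ∏ i, M i)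
    (Nat.odd_mul.mpr ⟨by decide, Finset.prod_induction _ _ (fun _ _ h1 h2 => Nat.odd_mul.mpr ⟨h1, h2⟩)
      odd_one fun i _ => hM i⟩)
  have hs1 : 1 ≤ s := by omega
  have hMs : ∀ i, 3 * M i ∣ nn s := fun i =>
    (mul_dvd_mul_left 3 (Finset.dvd_prod_of_mem M (Finset.mem_univ i))).trans hs3
  have hd : ∀ i, 3 * M i ∣ n0 s := fun i => dvd_trans (hMs i) (nn_dvd_n0 s)
  have hmpos : ∀ i, 0 < n0 s / (3 * M i) := fun i =>
    Nat.div_pos (Nat.le_of_dvd (n0_pos s hs1) (hd i)) (by have := (hM i).pos; omega)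
  have hmul : ∀ i, 3 * M i * (n0 s / (3 * M i)) = n0 s := fun i => Nat.mul_div_cancel' (hd i)
  have hD0 : Odd (D0 s) := by
    unfold D0
    exact Nat.odd_mul.mpr ⟨by decide, n0_odd s hs1⟩
  obtain ⟨ξ, hξ⟩ := exists_prim (D0 s) hD0
  set K := ∑ i, k i with hK
  have hkK : ∀ i, k i ≤ K := fun i => Finset.single_le_sum (fun _ _ => Nat.zero_le _)
    (Finset.mem_univ i)
  have hE : 0 < 2 ^ (K + 3) * n0 s := by
    have := n0_pos s hs1
    positivity
  choose a P hP hrho using fun i => W_rho s K (k i) (M i) (B i) hs1 (hkK i) (hM i).pos (hd i) hE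
  -- the relation
  have hrel : (∑ i, rho (2 ^ (K + 3) * n0 s) hE 1 (c i) *
      (single (a i) 1 * W s K (k i) (M i) (B i) + P i)) = rho (2 ^ (K + 3) * n0 s) hE 1
      (∑ i, c i * PowerSeries.mk fun m => (pa (2 ^ k i * M i * m + B i) : ZMod 2)) := by
    rw [map_sum]
    exact Finset.sum_congr rfl fun i _ => by rw [map_mul, hrho]
  set T : KK := rho (2 ^ (K + 3) * n0 s) hE 1
    (∑ i, c i * PowerSeries.mk fun m => (pa (2 ^ k i * M i * m + B i) : ZMod 2)) with hT
  have hTalg : IsAlgebraic L1 T := alg_rho _ hE 1 one_ne_zero _ h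
  have hcalg : ∀ i, IsAlgebraic L1 (rho (2 ^ (K + 3) * n0 s) hE 1 (c i)) := fun i =>
    alg_rho _ hE 1 one_ne_zero _ (hc i)
  have hL1 : ∀ y : KK, y ∈ L1 → IsAlgebraic L1 y := fun y hy =>
    isAlgebraic_algebraMap (⟨y, hy⟩ : L1)
  have hWm : ∀ i, W s K (k i) (M i) (B i) ∈ KF (D0 s) := fun i =>
    mem_KF.2 (W_mem s ξ hs hξ K (k i) (M i) (B i) (hM i).pos (hMs i))
  set Cf : Option ι → KK := fun o => match o with
    | none => (∑ i, rho (2 ^ (K + 3) * n0 s) hE 1 (c i) * P i) + T
    | some i => rho (2 ^ (K + 3) * n0 s) hE 1 (c i) * single (a i) 1 with hCf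
  set xf : Option ι → KF (D0 s) := fun o => match o with
    | none => 1
    | some i => ⟨W s K (k i) (M i) (B i), hWm i⟩ with hxf
  have hCalg : ∀ o, IsAlgebraic L1 (Cf o) := by
    rintro (_ | i)
    · rw [hCf]
      simp only
      rw [← mem_algebraicClosure_iff]
      refine add_mem (sum_mem fun i _ => mul_mem ?_ ?_) ?_
      · rw [mem_algebraicClosure_iff]; exact hcalg i
      · rw [mem_algebraicClosure_iff]; exact hL1 _ (hP i)
      · rw [mem_algebraicClosure_iff]; exact hTalg
    · rw [hCf]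
      simp only
      exact (hcalg i).mul (hL1 _ (single_mem _ _))
  have hind : ∀ y : Option ι → kk, ∑ o, algebraMap kk KK (y o) * (xf o : KK) = 0 →
      ∀ o, y o = 0 := by
    intro y hy
    rw [Fintype.sum_option] at hy
    have hco : ∀ g : ℤ, (algebraMap kk KK (y none) * ((xf none : KF (D0 s)) : KK)).coeff g +
        ∑ i, y (some i) * (W s K (k i) (M i) (B i)).coeff g = 0 := by
      intro g
      have h1 := congrArg (fun f : KK => f.coeff g) hy
      simp only [HahnSeries.coeff_add, HahnSeries.coeff_zero] at h1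
      rw [coeff_sum'] at h1
      rw [← h1]
      congr 1
      refine Finset.sum_congr rfl fun i _ => ?_
      rw [← HahnSeries.C_eq_algebraMap, HahnSeries.C_mul_eq_smul, HahnSeries.coeff_smul, smul_eq_mul]
    have hnone : ∀ g : ℤ, g ≠ 0 →
        (algebraMap kk KK (y none) * ((xf none : KF (D0 s)) : KK)).coeff g = 0 := by
      intro g hg
      have h1 : ((xf none : KF (D0 s)) : KK) = 1 := rfl
      rw [h1, mul_one, ← HahnSeries.C_eq_algebraMap, C_apply, HahnSeries.coeff_single_of_ne hg]
    have hsome : ∀ i, y (some i) = 0 := by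
      by_contra hex
      push Not at hex
      obtain ⟨i0, hi0⟩ := hex
      obtain ⟨o, ho, hmax⟩ := Finset.exists_max_image
        (Finset.univ.filter fun i => y (some i) ≠ 0) M ⟨i0, by simp [hi0]⟩
      rw [Finset.mem_filter] at ho
      have hyo := ho.2
      -- the class of `o`
      set J : Finset ι := Finset.univ.filter fun j => y (some j) ≠ 0 ∧
        ((6 * ((2 ^ k j * M j : ℕ) : ℤ) * ((2 ^ k o * M o : ℕ) : ℤ)) ∣
        ((2 ^ k o * M o : ℕ) : ℤ) * (6 * B j - 1) - ((2 ^ k j * M j : ℕ) : ℤ) * (6 * B o - 1))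
        with hJ
      have hJmem : ∀ j, j ∈ J ↔ y (some j) ≠ 0 ∧
        ((6 * ((2 ^ k j * M j : ℕ) : ℤ) * ((2 ^ k o * M o : ℕ) : ℤ)) ∣
        ((2 ^ k o * M o : ℕ) : ℤ) * (6 * B j - 1) - ((2 ^ k j * M j : ℕ) : ℤ) * (6 * B o - 1)) := by
        intro j
        rw [hJ, Finset.mem_filter]
        exact ⟨fun h => h.2, fun h => ⟨Finset.mem_univ _, h⟩⟩
      have hoJ : o ∈ J := (hJmem o).2 ⟨hyo, by rw [sub_self]; exact dvd_zero _⟩
      have hodd6 : ∀ b : ℕ, Odd (6 * (b : ℤ) - 1) := fun b => ⟨3 * b - 1, by ring⟩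
      have hkJ : ∀ j ∈ J, k j = k o := by
        intro j hj
        obtain ⟨v, hv⟩ := ((hJmem j).1 hj).2
        rcases lt_trichotomy (k j) (k o) with h | h | h
        · exact (CORE2.k_lt (k j) (k o) (M j) (M o) (hM j) (6 * B o - 1) (6 * B j - 1) (-v)
            (hodd6 _) (by push_cast at hv ⊢; linear_combination -hv) h).elim
        · exact h
        · exact (CORE2.k_lt (k o) (k j) (M o) (M j) (hM o) (6 * B j - 1) (6 * B o - 1) v
            (hodd6 _) (by push_cast at hv ⊢; linear_combination hv) h).elim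
      have hv : ∀ j ∈ J, ∃ v : ℤ, (M o : ℤ) * (6 * B j - 1) - (M j : ℤ) * (6 * B o - 1) =
          6 * 2 ^ k o * M j * M o * v := by
        intro j hj
        obtain ⟨v, hv⟩ := ((hJmem j).1 hj).2
        refine ⟨v, ?_⟩
        rw [hkJ j hj] at hv
        push_cast at hv
        apply mul_left_cancel₀ (a := (2 : ℤ) ^ k o) (by positivity)
        linear_combination hv
      choose! v hv using hv
      set T : ℤ := ∑ j ∈ J, |v j| with hT2
      have hTv : ∀ j ∈ J, v j ≤ T := fun j hj =>
        (le_abs_self _).trans (Finset.single_le_sum (f := fun j => |v j|)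
          (fun _ _ => abs_nonneg _) hj)
      set B' : ι → ℕ := fun j => B j + 2 ^ k j * M j * (T - v j).toNat with hB'
      have hB'z : ∀ j ∈ J, (B' j : ℤ) = B j + 2 ^ k o * M j * (T - v j) := by
        intro j hj
        rw [hB']
        simp only
        push_cast
        rw [hkJ j hj, Int.toNat_of_nonneg (by have := hTv j hj; omega)]
      have hB'1 : ∀ j ∈ J, (M o : ℤ) * (6 * B' j - 1) =
          (M j : ℤ) * (6 * B o - 1) + 6 * 2 ^ k o * M j * M o * T := by
        intro j hj
        rw [hB'z j hj]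
        linear_combination hv j hj
      have hcong : ∀ j ∈ J, (M j : ℤ) * (6 * B' o - 1) = (M o : ℤ) * (6 * B' j - 1) := by
        intro j hj
        have hMo : (M o : ℤ) ≠ 0 := by exact_mod_cast (hM o).pos.ne'
        apply mul_left_cancel₀ hMo
        have e1 := hB'1 j hj
        have e2 := hB'1 o hoJ
        linear_combination (M j : ℤ) * e2 - (M o : ℤ) * e1
      have hB'4 : B' o % 4 = 0 ∨ B' o % 4 = 1 := by
        have h1 : B' o % 4 = B o % 4 := by
          rw [hB']
          simp only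
          obtain ⟨d, hd⟩ : ∃ d, k o = 2 + d := ⟨k o - 2, by have := hk o; omega⟩
          rw [hd, _root_.pow_add]
          have : 2 ^ 2 * 2 ^ d * M o * (T - v o).toNat = 4 * (2 ^ d * M o * (T - v o).toNat) := by
            ring
          rw [this, Nat.add_mul_mod_self_left]
        rw [h1]
        exact hB o
      have hlt : ∀ j ∈ J, j ≠ o → M j < M o := by
        intro j hj hjo
        have h1 : M j ≤ M o := hmax j (by
          rw [Finset.mem_filter]
          exact ⟨Finset.mem_univ _, ((hJmem j).1 hj).1⟩)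
        refine lt_of_le_of_ne h1 ?_
        intro h2
        exact hI j o hjo (by rw [hkJ j hj, h2]) ((hJmem j).1 hj).2
      obtain ⟨m, hm⟩ := all_FAM (k o) (hk o) ι J M B' (fun j => y (some j)) o hoJ
        (fun j _ => hM j) hB'4 hcong hlt hyo
      apply hm
      set g : ℤ := ((2 ^ (K - k o) * (4 * (n0 s / (3 * M o))) : ℕ) : ℤ) *
        (6 * (((2 ^ k o * M o : ℕ) : ℤ) * m + B' o) - 1) with hg
      have hgne : g ≠ 0 := by
        rw [hg]
        have h1 : ((2 ^ (K - k o) * (4 * (n0 s / (3 * M o))) : ℕ) : ℤ) ≠ 0 := by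
          have := hmpos o
          positivity
        refine mul_ne_zero h1 ?_
        omega
      have h1 := hco g
      rw [hnone _ hgne, zero_add] at h1
      rw [← h1, ← Finset.sum_subset (Finset.subset_univ J)]
      · refine Finset.sum_congr rfl fun j hj => ?_
        have h2 : W s K (k j) (M j) (B j) = W s K (k j) (M j) (B' j) := by
          unfold W
          have h3 : B' j % (2 ^ k j * M j) = B j % (2 ^ k j * M j) := by
            rw [hB']
            simp only
            rw [Nat.add_mul_mod_self_left]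
          rw [h3]
        have h4 : g = ((2 ^ (K - k j) * (4 * (n0 s / (3 * M j))) : ℕ) : ℤ) *
            (6 * (((2 ^ k j * M j : ℕ) : ℤ) * m + B' j) - 1) := by
          rw [hg, hkJ j hj]
          have h5 := FINM.expo s (k o) (n0 s / (3 * M j)) (n0 s / (3 * M o)) (M j) (M o) (B' j)
            (B' o) (by rw [mul_comm]; exact hmul j) (by rw [mul_comm]; exact hmul o)
            (hM j).pos (hM o).pos (hcong j hj) m
          have h6 : ∀ n : ℕ, ((2 ^ (K - k o) * (4 * n) : ℕ) : ℤ) =
              (2 : ℤ) ^ (K - k o) * 4 * (n : ℤ) := by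
            intro n; push_cast; ring
          rw [h6, h6, mul_assoc _ ((n0 s / (3 * M o) : ℕ) : ℤ), mul_assoc _ ((n0 s / (3 * M j) : ℕ) : ℤ),
            h5]
        rw [h2, h4, FINM.W_coeff' s K (k j) (M j) (B' j) (hmpos j) m, hkJ j hj]
      · intro j _ hjJ
        by_cases hyj : y (some j) = 0
        · rw [hyj, zero_mul]
        · by_contra hne
          have hne2 : (W s K (k j) (M j) (B j)).coeff g ≠ 0 := by
            intro h0
            rw [h0, mul_zero] at hne
            exact hne rfl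
          obtain ⟨m', heq⟩ := FINM.W_supp' s K (k j) (M j) (B j) (hmpos j) g hne2
          apply hjJ
          rw [hJmem]
          refine ⟨hyj, ?_⟩
          have ec : ∀ i, ((2 ^ (K - k i) * (4 * (n0 s / (3 * M i))) : ℕ) : ℤ) *
              (3 * (2 ^ k i * M i : ℕ)) = ((2 ^ K * 4 * n0 s : ℕ) : ℤ) := by
            intro i
            have e2 : 2 ^ K = 2 ^ (K - k i) * 2 ^ k i := by
              rw [← _root_.pow_add]
              congr 1
              have := hkK i
              omega
            have e3 : 2 ^ (K - k i) * (4 * (n0 s / (3 * M i))) * (3 * (2 ^ k i * M i)) =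
                2 ^ K * 4 * n0 s := by
              rw [e2]
              conv_rhs => rw [← hmul i]
              ring
            exact_mod_cast e3
          have hpos : ((2 ^ K * 4 * n0 s : ℕ) : ℤ) ≠ 0 := by
            have := n0_pos s hs1
            positivity
          set co : ℤ := ((2 ^ (K - k o) * (4 * (n0 s / (3 * M o))) : ℕ) : ℤ) with hco'
          set cj : ℤ := ((2 ^ (K - k j) * (4 * (n0 s / (3 * M j))) : ℕ) : ℤ) with hcj'
          have eo := ec o
          have ej := ec j
          rw [← hco'] at eo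
          rw [← hcj'] at ej
          have hBo : (B' o : ℤ) = B o + ((2 ^ k o * M o : ℕ) : ℤ) * (T - v o) := by
            rw [hB'z o hoJ]
            push_cast
            ring
          set Ao : ℤ := ((2 ^ k o * M o : ℕ) : ℤ) with hAo
          set Aj : ℤ := ((2 ^ k j * M j : ℕ) : ℤ) with hAj
          set N : ℤ := ((2 ^ K * 4 * n0 s : ℕ) : ℤ) with hN
          have e4 : Aj * (6 * (Ao * m + B' o) - 1) = Ao * (6 * (Aj * m' + B j) - 1) := by
            apply mul_left_cancel₀ hpos
            have e5 : co * (6 * (Ao * m + B' o) - 1) = cj * (6 * (Aj * m' + B j) - 1) := by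
              rw [← hg, heq]
            calc N * (Aj * (6 * (Ao * m + B' o) - 1))
                = (co * (6 * (Ao * m + B' o) - 1)) * (3 * Ao * Aj) := by rw [← eo]; ring
              _ = (cj * (6 * (Aj * m' + B j) - 1)) * (3 * Ao * Aj) := by rw [e5]
              _ = N * (Ao * (6 * (Aj * m' + B j) - 1)) := by rw [← ej]; ring
          refine ⟨m + (T - v o) - m', ?_⟩
          rw [hBo] at e4
          linear_combination -e4
    rintro (_ | i)
    · have h1 := hco 0
      rw [Finset.sum_eq_zero (fun i _ => by rw [hsome i, zero_mul]), add_zero] at h1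
      have h2 : ((xf none : KF (D0 s)) : KK) = 1 := rfl
      rw [h2, mul_one, ← HahnSeries.C_eq_algebraMap, C_apply, HahnSeries.coeff_single_same] at h1
      exact h1
    · exact hsome i
  have hfin := LDJ.disj2 (single (1 : ℤ) (1 : kk) : KK) (KF (D0 s))
    (z_transc (D0 s) (by exact_mod_cast hD0.pos)) xf Cf hCalg hind (by
      rw [Fintype.sum_option]
      have h1 : ((xf none : KF (D0 s)) : KK) * Cf none =
        (∑ i, rho (2 ^ (K + 3) * n0 s) hE 1 (c i) * P i) + T := by
        change (1 : KK) * _ = _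
        rw [one_mul]
      have h2 : ∀ i, ((xf (some i) : KF (D0 s)) : KK) * Cf (some i) =
          rho (2 ^ (K + 3) * n0 s) hE 1 (c i) * (single (a i) 1 * W s K (k i) (M i) (B i)) := by
        intro i
        change W s K (k i) (M i) (B i) * (rho (2 ^ (K + 3) * n0 s) hE 1 (c i) * single (a i) 1) = _
        ring
      rw [h1, Finset.sum_congr rfl fun i _ => h2 i]
      have h3 : T = (∑ i, rho (2 ^ (K + 3) * n0 s) hE 1 (c i) *
          (single (a i) 1 * W s K (k i) (M i) (B i))) +
          ∑ i, rho (2 ^ (K + 3) * n0 s) hE 1 (c i) * P i := by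
        rw [← Finset.sum_add_distrib, ← hrel]
        exact Finset.sum_congr rfl fun i _ => by ring
      have h4 : ∀ X Y : KK, X + (Y + X) + Y = 0 := by
        intro X Y
        have := CharTwo.add_self_eq_zero (X + Y)
        linear_combination this
      rw [h3]
      exact h4 _ _)
  intro i
  have h1 := hfin (some i)
  have h2 : rho (2 ^ (K + 3) * n0 s) hE 1 (c i) * single (a i) (1 : kk) = 0 := h1
  have h3 : rho (2 ^ (K + 3) * n0 s) hE 1 (c i) = 0 := by
    rcases mul_eq_zero.1 h2 with h4 | h4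
    · exact h4
    · exact absurd h4 (HahnSeries.single_ne_zero one_ne_zero)
  exact rho_inj _ hE 1 one_ne_zero (by rw [h3, map_zero])


end Pool.Agent.Work.P57.LI
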